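import Pool.Agent.Y336.PF.ClaimV
import Pool.Agent.H139R2.GP.Final

/-! The combinatorial core for cubes in an arbitrary group containing the lattice. -/

set_option autoImplicit false

namespace Pool.Agent.Y336.PF

open H460 H139R2.GP

/-- resampling, for a set which is embedded in the group of the generators -/
theorem resample_emb {ι G Y : Type*} [Fintype ι] [AddCommGroup G] (e : Y → G)
    (he : Function.Injective e) (g : ι → G) (a : G) (J : Finset ι) (A' : Finset Y)
    (hA' : ∀ s ∈ A', ∃ S : Finset ι, e s = a + ∑ i ∈ S, g i) :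
    ∃ (z : G) (D : Finset Y) (x : Y → J → ℤ), D ⊆ A' ∧
      A'.card * (sums g J).card ≤ (sums g Finset.univ).card * D.card ∧
      ∀ s ∈ D, (∀ j, |x s j| ≤ 1) ∧ ∑ j, x s j • g j = e s - z := by
  classical
  obtain ⟨z, D, x, hDA, hcard, hx⟩ := resample g a J (A'.image e) (by
    intro s hs
    obtain ⟨y, hy, rfl⟩ := Finset.mem_image.1 hs
    exact hA' y hy)
  have hDeq : (A'.filter (fun y => e y ∈ D)).image e = D := by
    ext s
    rw [Finset.mem_image]
    constructor
    · rintro ⟨y, hy, rfl⟩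
      exact (Finset.mem_filter.1 hy).2
    · intro hs
      obtain ⟨y, hy, rfl⟩ := Finset.mem_image.1 (hDA hs)
      exact ⟨y, Finset.mem_filter.2 ⟨hy, hs⟩, rfl⟩
  refine ⟨z, A'.filter (fun y => e y ∈ D), fun y => x (e y), Finset.filter_subset _ _, ?_, ?_⟩
  · rw [← Finset.card_image_of_injective (A'.filter (fun y => e y ∈ D)) he, hDeq,
      ← Finset.card_image_of_injective A' he]
    exact hcard
  · intro s hs
    exact hx (e s) (Finset.mem_filter.1 hs).2

theorem sums_map_card {ι G E : Type*} [AddCommGroup G] [AddCommGroup E] (ψ : G →+ E) (g : ι → G)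
    (J : Finset ι) : (sums (fun i => ψ (g i)) J).card ≤ (sums g J).card := by
  classical
  have h : sums (fun i => ψ (g i)) J = (sums g J).image ψ := by
    ext y
    rw [mem_sums, Finset.mem_image]
    constructor
    · rintro ⟨S, hS, rfl⟩
      exact ⟨∑ i ∈ S, g i, (mem_sums _ _ _).2 ⟨S, hS, rfl⟩, map_sum _ _ _⟩
    · rintro ⟨x, hx, rfl⟩
      obtain ⟨S, hS, rfl⟩ := (mem_sums _ _ _).1 hx
      exact ⟨S, hS, (map_sum _ _ _).symm⟩
  rw [h]
  exact Finset.card_image_le

/-- the homomorphism `y ↦ ∑ y_j g_j` -/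
def comb {J G : Type*} [Fintype J] [AddCommGroup G] (g : J → G) : (J → ℤ) →+ G where
  toFun y := ∑ j, y j • g j
  map_zero' := by simp
  map_add' := by intro x y; simp [add_smul, Finset.sum_add_distrib]

/-- claim* applied to a resampled family -/
theorem claim_apply_gen {n μ κ : ℕ} {L : AddSubgroup (Fin n → ℤ)} (hC : ClaimGen n μ κ L)
    {G : Type*} [AddCommGroup G] (e : L →+ G) (ψ : G →+ EuclideanSpace ℝ (Fin n))
    (hψ : ∀ y : L, ψ (e y) = emb (Fin n) y) {ι : Type} (g : ι → G) (J : Finset ι)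
    (hJ : J.card ≤ κ * n) (D : Finset L) (hD : ∀ s ∈ D, ∀ i, |(s : Fin n → ℤ) i| ≤ 2 ^ (n ^ 2))
    (z : G) (x : L → J → ℤ)
    (hx : ∀ s ∈ D, (∀ j, |x s j| ≤ 1) ∧ ∑ j, x s j • g j = e s - z) :
    (D.card : ℝ) ≤ (2 : ℝ) ^ ((12 + (μ : ℝ) / 2) * n) := by
  classical
  set c : ℝ := (2 : ℝ) ^ (-((n ^ 2 : ℕ) : ℤ)) with hc
  set Φ : (J → ℤ) →+ EuclideanSpace ℝ (Fin n) :=
    ((LinearMap.lsmul ℝ (EuclideanSpace ℝ (Fin n)) c).toAddMonoidHom).comp
      (ψ.comp (comb (fun j : J => g j))) with hΦ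
  have hΦa : ∀ y, Φ y = c • ψ (∑ j, y j • g j) := fun y => rfl
  have hcard : (D.image (fun s : L => (s : Fin n → ℤ))).card = D.card :=
    Finset.card_image_of_injective _ Subtype.val_injective
  rw [← hcard]
  set X : (Fin n → ℤ) → (J → ℤ) := fun s => if h : s ∈ L then x ⟨s, h⟩ else 0 with hX
  have hXs : ∀ s : L, X (s : Fin n → ℤ) = x s := by
    intro s
    simp only [hX]
    rw [dif_pos s.2]
  apply hC J (by simpa using hJ) Φ _ X
  · intro s hs j
    obtain ⟨y, hy, rfl⟩ := Finset.mem_image.1 hs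
    rw [hXs]
    exact ((hx y hy).1 j).trans (by norm_num)
  · intro s hs i
    obtain ⟨y, hy, rfl⟩ := Finset.mem_image.1 hs
    exact hD y hy i
  · intro s hs
    obtain ⟨y, hy, rfl⟩ := Finset.mem_image.1 hs
    exact y.2
  · intro s hs s' hs'
    obtain ⟨y, hy, rfl⟩ := Finset.mem_image.1 hs
    obtain ⟨y', hy', rfl⟩ := Finset.mem_image.1 hs'
    rw [hXs, hXs, hΦa]
    have e1 : ∑ j, (x y - x y') j • g j = e (y - y') := by
      simp only [Pi.sub_apply, sub_smul, Finset.sum_sub_distrib]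
      rw [(hx y hy).2, (hx y' hy').2, map_sub]
      abel
    rw [e1, hψ]
    rfl

/-- combinatorial core: the size of `A'` versus the size of the cube -/
theorem core_gen {n μ m : ℕ} {L : AddSubgroup (Fin n → ℤ)} (hC : ClaimGen n μ (2 ^ m) L)
    (hpts : ∀ (V : Submodule ℝ (EuclideanSpace ℝ (Fin n))) (d : ℕ), Module.finrank ℝ V ≤ d →
      ∀ S : Finset (Fin n → ℤ), (∀ x ∈ S, ∀ y ∈ S, x - y ∈ L ∧ H460.emb (Fin n) (x - y) ∈ V) →
      (∃ z : Fin n → ℤ, ∀ x ∈ S, ∀ i, |x i - z i| ≤ 2 ^ (n ^ 2)) →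
      (S.card : ℝ) ≤ 2 ^ (6 * n + 1 + (μ + 4) * d))
    {G : Type*} [AddCommGroup G] (e : L →+ G) (he : Function.Injective e)
    {ι : Type} [Fintype ι] (g : ι → G) (a : G) (A' : Finset L)
    (hAb : ∀ s ∈ A', ∀ i, |(s : Fin n → ℤ) i| ≤ 2 ^ (n ^ 2))
    (hA' : ∀ s ∈ A', ∃ S : Finset ι, e s = a + ∑ i ∈ S, g i) :
    ((2:ℝ) ^ (m * (n/4)) * A'.card ≤ (sums g Finset.univ).card * (2 : ℝ) ^ ((12 + (μ : ℝ) / 2) * n)) ∨
    ((A'.card : ℝ)^3 ≤ ((sums g Finset.univ).card : ℝ)^2 *
      ((2 : ℝ) ^ ((12 + (μ : ℝ) / 2) * n) * 2 ^ (6 * n + 1 + (μ + 4) * (n/4)))) := by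
  classical
  -- extension of the coordinates to the ambient group
  obtain ⟨ψ, hψ0⟩ : ∃ ψ : G →+ EuclideanSpace ℝ (Fin n),
      ψ.comp e = (emb (Fin n)).comp L.subtype := by
    have hb : Module.Baer ℤ (EuclideanSpace ℝ (Fin n)) := by
      letI : DivisibleBy (EuclideanSpace ℝ (Fin n)) ℤ :=
        { div := fun x k => ((k : ℝ)⁻¹) • x
          div_zero := fun x => by simp
          div_cancel := fun {k} x hk => by
            have hk' : (k : ℝ) ≠ 0 := by exact_mod_cast hk
            rw [← Int.cast_smul_eq_zsmul ℝ, smul_smul, mul_inv_cancel₀ hk', one_smul] }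
      exact Module.Baer.of_divisible _
    exact hb.extension_property_addMonoidHom e he _
  have hψ : ∀ y : L, ψ (e y) = emb (Fin n) y := fun y => DFunLike.congr_fun hψ0 y
  rcases blocks (fun i => ψ (g i)) (n/4) (2^m) with ⟨B, hB1, hB2, hB3⟩ | ⟨J, hJ1, hJ2⟩
  · left
    have h1 := blocks_sums (fun i => ψ (g i)) (2^m) (n/4) B hB1 hB2 hB3
    have h2 := h1.trans (sums_map_card ψ g (Finset.univ.biUnion B))
    obtain ⟨z, D, x, hDA, hcard, hx⟩ := resample_emb e he g a (Finset.univ.biUnion B) A' hA'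
    have hJcard : (Finset.univ.biUnion B).card ≤ 2^m * n := by
      calc (Finset.univ.biUnion B).card ≤ ∑ l, (B l).card := Finset.card_biUnion_le
        _ = 2^m * (n/4) := by simp [hB2]
        _ ≤ 2^m * n := by gcongr; omega
    have h3 := claim_apply_gen hC e ψ hψ g _ hJcard D (fun s hs => hAb s (hDA hs)) z x hx
    have h4 : ((A'.card : ℝ)) * ((sums g (Finset.univ.biUnion B)).card : ℝ)
        ≤ ((sums g Finset.univ).card : ℝ) * D.card := by exact_mod_cast hcard
    have h5 : ((2:ℝ) ^ (m * (n/4))) ≤ ((sums g (Finset.univ.biUnion B)).card : ℝ) := by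
      rw [pow_mul]; exact_mod_cast h2
    calc (2:ℝ) ^ (m * (n/4)) * A'.card = A'.card * (2:ℝ) ^ (m * (n/4)) := mul_comm _ _
      _ ≤ A'.card * ((sums g (Finset.univ.biUnion B)).card : ℝ) := by gcongr
      _ ≤ ((sums g Finset.univ).card : ℝ) * D.card := h4
      _ ≤ _ := by gcongr
  · right
    have hrank := finrank_le (fun i => ψ (g i)) (n/4) J hJ2
    obtain ⟨z1, D1, x1, hDA1, hcard1, hx1⟩ := resample_emb e he g a J A' hA'
    obtain ⟨z2, D2, x2, hDA2, hcard2, hx2⟩ := resample_emb e he g a Jᶜ A' hA'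
    have hJcard : J.card ≤ 2^m * n := hJ1.trans (by gcongr; omega)
    have h3 := claim_apply_gen hC e ψ hψ g _ hJcard D1 (fun s hs => hAb s (hDA1 hs)) z1 x1 hx1
    have h4 : (D2.card : ℝ) ≤ 2 ^ (6 * n + 1 + (μ + 4) * (n/4)) := by
      have hcard : (D2.image (fun s : L => (s : Fin n → ℤ))).card = D2.card :=
        Finset.card_image_of_injective _ Subtype.val_injective
      rw [← hcard]
      apply hpts _ (n/4) hrank (D2.image (fun s : L => (s : Fin n → ℤ)))
      · intro s hs s' hs'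
        obtain ⟨y, hy, rfl⟩ := Finset.mem_image.1 hs
        obtain ⟨y', hy', rfl⟩ := Finset.mem_image.1 hs'
        refine ⟨L.sub_mem y.2 y'.2, ?_⟩
        have e0 : (y : Fin n → ℤ) - (y' : Fin n → ℤ) = ((y - y' : L) : Fin n → ℤ) := rfl
        have e1 : e (y - y') = ∑ j, (x2 y j - x2 y' j) • g j := by
          simp only [sub_smul, Finset.sum_sub_distrib]
          rw [(hx2 y hy).2, (hx2 y' hy').2, map_sub]; abel
        rw [e0, ← hψ, e1, map_sum]
        apply Submodule.sum_mem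
        intro j _
        rw [map_zsmul]
        apply Submodule.smul_of_tower_mem
        apply Submodule.subset_span
        exact ⟨j, j.2, rfl⟩
      · refine ⟨0, fun s hs i => ?_⟩
        obtain ⟨y, hy, rfl⟩ := Finset.mem_image.1 hs
        simpa using hAb y (hDA2 hy) i
    have hc1 : ((A'.card : ℝ)) * ((sums g J).card : ℝ) ≤ ((sums g Finset.univ).card : ℝ) * D1.card := by
      exact_mod_cast hcard1
    have hc2 : ((A'.card : ℝ)) * ((sums g Jᶜ).card : ℝ) ≤ ((sums g Finset.univ).card : ℝ) * D2.card := by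
      exact_mod_cast hcard2
    have hprod : (A'.card : ℝ) ≤ ((sums g J).card : ℝ) * ((sums g Jᶜ).card : ℝ) := by
      have h6 : A'.image e ⊆ ((sums g J) ×ˢ (sums g Jᶜ)).image (fun p => a + (p.1 + p.2)) := by
        intro s hs
        obtain ⟨y, hy, rfl⟩ := Finset.mem_image.1 hs
        obtain ⟨S, hS⟩ := hA' y hy
        rw [Finset.mem_image]
        refine ⟨(∑ i ∈ S ∩ J, g i, ∑ i ∈ S \ J, g i), ?_, ?_⟩
        · rw [Finset.mem_product]
          refine ⟨(mem_sums _ _ _).2 ⟨S ∩ J, Finset.inter_subset_right, rfl⟩,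
            (mem_sums _ _ _).2 ⟨S \ J, ?_, rfl⟩⟩
          intro i hi
          rw [Finset.mem_compl]; exact (Finset.mem_sdiff.1 hi).2
        · rw [hS]
          congr 1
          simp only
          rw [Finset.sum_inter_add_sum_sdiff]
      have h7 := (Finset.card_le_card h6).trans Finset.card_image_le
      rw [Finset.card_product, Finset.card_image_of_injective A' he] at h7
      exact_mod_cast h7
    have hA0 : (0:ℝ) ≤ A'.card := by positivity
    have hs0 : (0:ℝ) ≤ (sums g Finset.univ).card := by positivity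
    calc (A'.card : ℝ)^3 = A'.card * A'.card * A'.card := by ring
      _ ≤ A'.card * A'.card * (((sums g J).card : ℝ) * ((sums g Jᶜ).card : ℝ)) := by gcongr
      _ = (A'.card * ((sums g J).card : ℝ)) * (A'.card * ((sums g Jᶜ).card : ℝ)) := by ring
      _ ≤ (((sums g Finset.univ).card : ℝ) * D1.card) * (((sums g Finset.univ).card : ℝ) * D2.card) := by
          gcongr
      _ = ((sums g Finset.univ).card : ℝ)^2 * (D1.card * D2.card) := by ring
      _ ≤ _ := by gcongr

end Pool.Agent.Y336.PF
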