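import Pool.Agent.H139R2.RL.Main

/-! Random lattices for one value of `n`. -/

set_option autoImplicit false
set_option linter.unusedSectionVars false

namespace Pool.Agent.Y336.PF

open MeasureTheory Finset
open scoped RealInnerProductSpace
open InnerProductSpace H139R2

/-- A good lattice exists as soon as `Big n μ` holds. -/
theorem lattice_at {n μ : ℕ} (hB : Big n μ) : ∃ L : AddSubgroup (Fin n → ℤ), H460.Good n μ L := by
  classical
  -- prime
  obtain ⟨q, hqp, hq1, hq2⟩ := Nat.exists_prime_lt_and_le_two_mul ((2 ^ (n^2 - μ))^n) (by positivity)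
  have : Fact q.Prime := ⟨hqp⟩
  have hN : H460.NN n μ = ((2 ^ (n^2-μ) : ℕ) : ℝ) := by unfold H460.NN; push_cast; rfl
  have hq1' : (H460.NN n μ) ^ n < q := by rw [hN]; exact_mod_cast hq1
  have hq2' : (q:ℝ) ≤ 2 * (H460.NN n μ) ^ n := by rw [hN]; exact_mod_cast hq2
  have hNpos : 0 < H460.NN n μ := by unfold H460.NN; positivity
  have hqpos : (0:ℝ) < q := by exact_mod_cast hqp.pos
  set t := 256 / H460.NN n μ ^ 2 with ht
  have htpos : 0 < t := by positivity
  set Sa : (Fin n → ZMod q) → ℝ := fun a =>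
    ∑' x : Fin n → ℤ, (if x ∈ La q a ∧ x ≠ 0 then Real.exp (-t * ‖emb x‖^2) else 0) with hSa
  have hSa0 : ∀ a, 0 ≤ Sa a := fun a => tsum_nonneg fun x => by split_ifs; exact (Real.exp_pos _).le; exact le_rfl
  have hsum : ∑ a, Sa a ≤ (q:ℝ)^n * (1/4) := by
    refine (sum_theta (n := n) (q := q) t htpos).trans ?_
    gcongr
    exact theta_num hB hq1'
  by_contra hcon
  push Not at hcon
  have hall : ∀ a : Fin n → ZMod q, (∃ b : Fin (n/2) → (Fin n → ℤ),
      (∀ i, b i ∈ La q a) ∧ H460.BadTuple n μ b) ∨ 1 < Sa a := by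
    intro a
    by_contra h
    push Not at h
    apply hcon (La q a)
    refine ⟨?_, ?_, card_box hB.mu_nat hq2' a⟩
    · rw [← ht, th_La a t htpos]
      linarith [h.2]
    · intro b hb hbad
      exact h.1 b hb hbad
  set B1 : Finset (Fin n → ZMod q) := Finset.univ.filter fun a => ∃ b : Fin (n/2) → (Fin n → ℤ),
      (∀ i, b i ∈ La q a) ∧ H460.BadTuple n μ b
  set B2 : Finset (Fin n → ZMod q) := Finset.univ.filter fun a => 1 < Sa a
  have h1 : 4 * (B1.card : ℝ) ≤ (q:ℝ)^n := by
    have := card_bad (μ := μ) (q := q) hB hq1'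
    rwa [Nat.card_eq_fintype_card, Fintype.card_subtype] at this
  have h2 : (B2.card : ℝ) ≤ (q:ℝ)^n * (1/4) := by
    calc (B2.card : ℝ) = ∑ a ∈ B2, (1:ℝ) := by simp
      _ ≤ ∑ a ∈ B2, Sa a := Finset.sum_le_sum fun a ha => (Finset.mem_filter.1 ha).2.le
      _ ≤ ∑ a, Sa a := Finset.sum_le_sum_of_subset_of_nonneg (Finset.subset_univ _) fun a _ _ => hSa0 a
      _ ≤ _ := hsum
  have h3 : (q:ℝ)^n ≤ B1.card + B2.card := by
    have h4 : (Finset.univ : Finset (Fin n → ZMod q)) ⊆ B1 ∪ B2 := by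
      intro a _
      rcases hall a with h | h
      · exact Finset.mem_union_left _ (Finset.mem_filter.2 ⟨Finset.mem_univ _, h⟩)
      · exact Finset.mem_union_right _ (Finset.mem_filter.2 ⟨Finset.mem_univ _, h⟩)
    have h5 := (Finset.card_le_card h4).trans (Finset.card_union_le _ _)
    rw [Finset.card_univ] at h5
    simp only [Fintype.card_pi, ZMod.card, Finset.prod_const, Finset.card_univ, Fintype.card_fin] at h5
    exact_mod_cast h5
  have h6 : 0 < (q:ℝ)^n := by positivity
  linarith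


end Pool.Agent.Y336.PF
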