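import Pool.Agent.Y336.PF.Asym
import Pool.Agent.Y336.PF.Core
import Pool.Agent.Y336.PF.Lat
import Pool.Agent.H137R2.PFR.Wrap

/-! Lattice points in a cube cannot be approximated by cubes of an arbitrary group. -/

set_option autoImplicit false

namespace Pool.Agent.Y336.PF

open Filter Topology H460 H139R2.GP

/-- numerical conclusion -/
theorem num_max {n μ C1 m : ℕ} (hn : 8 ≤ n) (hμ : μ = 20 * C1 + 100)
    (hm : m = 8 * (2 * C1 + 13 + μ)) (a p b : ℝ) (hb : (2:ℝ) ^ (μ * n) / 2 ≤ b) (hp0 : 0 ≤ p)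
    (ha0 : 0 ≤ a)
    (h : ((2:ℝ) ^ (m * (n/4)) * a ≤ p * (2 : ℝ) ^ ((12 + (μ : ℝ) / 2) * n)) ∨
    (a^3 ≤ p^2 * ((2 : ℝ) ^ ((12 + (μ : ℝ) / 2) * n) * 2 ^ (6 * n + 1 + (μ + 4) * (n/4))))) :
    a * (2:ℝ) ^ (C1 * n) ≤ max b p := by
  have hb0 : 0 < b := lt_of_lt_of_le (by positivity) hb
  set M := max b p with hM
  have hbM : b ≤ M := le_max_left _ _
  have hpM : p ≤ M := le_max_right _ _
  have hM0 : 0 < M := lt_of_lt_of_le hb0 hbM
  have hnr : (8:ℝ) ≤ n := by exact_mod_cast hn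
  have hn4 : (n:ℝ)/8 ≤ ((n/4 : ℕ) : ℝ) := by
    have : n ≤ 4 * (n/4) + 3 := by omega
    have : (n:ℝ) ≤ 4 * ((n/4 : ℕ) : ℝ) + 3 := by exact_mod_cast this
    linarith
  have hn4' : ((n/4 : ℕ) : ℝ) ≤ (n:ℝ)/4 := by
    have : 4 * (n/4) ≤ n := by omega
    have : (4:ℝ) * ((n/4 : ℕ) : ℝ) ≤ n := by exact_mod_cast this
    linarith
  have hC0 : (0:ℝ) ≤ C1 := by positivity
  have hμ0 : (0:ℝ) ≤ μ := by positivity
  have hμr : (μ:ℝ) = 20 * C1 + 100 := by rw [hμ]; push_cast; ring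
  have hmr : (m:ℝ) = 8 * (2 * C1 + 13 + μ) := by rw [hm]; push_cast; ring
  have hCn : 0 ≤ (C1 : ℝ) * n := by positivity
  have hμn : 0 ≤ (μ : ℝ) * n := by positivity
  rcases h with h | h
  · have h1 : (2 : ℝ) ^ ((12 + (μ : ℝ) / 2) * n) * (2:ℝ) ^ (C1 * n) ≤ (2:ℝ) ^ (m * (n/4)) := by
      rw [← Real.rpow_natCast 2 (C1 * n), ← Real.rpow_natCast 2 (m * (n/4)),
        ← Real.rpow_add (by norm_num)]
      apply Real.rpow_le_rpow_of_exponent_le (by norm_num)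
      push_cast
      have h7 : (m:ℝ) * (n/8) ≤ (m:ℝ) * ((n/4 : ℕ) : ℝ) := by gcongr
      rw [hmr] at h7
      rw [hmr]
      nlinarith
    have h2 : 0 < (2 : ℝ) ^ ((12 + (μ : ℝ) / 2) * n) := by positivity
    have h3 : ((2 : ℝ) ^ ((12 + (μ : ℝ) / 2) * n)) * (a * (2:ℝ) ^ (C1 * n)) ≤
        ((2 : ℝ) ^ ((12 + (μ : ℝ) / 2) * n)) * M := by
      calc ((2 : ℝ) ^ ((12 + (μ : ℝ) / 2) * n)) * (a * (2:ℝ) ^ (C1 * n))
          = ((2 : ℝ) ^ ((12 + (μ : ℝ) / 2) * n) * (2:ℝ) ^ (C1 * n)) * a := by ring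
        _ ≤ (2:ℝ) ^ (m * (n/4)) * a := by gcongr
        _ ≤ p * (2 : ℝ) ^ ((12 + (μ : ℝ) / 2) * n) := h
        _ ≤ M * (2 : ℝ) ^ ((12 + (μ : ℝ) / 2) * n) := by gcongr
        _ = _ := by ring
    exact le_of_mul_le_mul_left h3 h2
  · set Y := (2 : ℝ) ^ ((12 + (μ : ℝ) / 2) * n) * 2 ^ (6 * n + 1 + (μ + 4) * (n/4)) with hY
    have hY0 : 0 < Y := by positivity
    have h1 : Y * ((2:ℝ) ^ (C1 * n)) ^ 3 ≤ M := by
      refine le_trans ?_ (hb.trans hbM)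
      have e2 : (2:ℝ) ^ (μ * n) / 2 = (2:ℝ) ^ ((μ : ℝ) * n - 1) := by
        rw [Real.rpow_sub (by norm_num), Real.rpow_one]
        congr 1
        rw [← Real.rpow_natCast]
        push_cast
        rfl
      rw [e2, hY, ← pow_mul, ← Real.rpow_natCast 2 (6 * n + 1 + (μ + 4) * (n/4)),
        ← Real.rpow_natCast 2 (C1 * n * 3), ← Real.rpow_add (by norm_num),
        ← Real.rpow_add (by norm_num)]
      apply Real.rpow_le_rpow_of_exponent_le (by norm_num)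
      push_cast
      have h5 : ((μ:ℝ)+4) * ((n/4 : ℕ) : ℝ) ≤ (μ+4) * (n/4) := by gcongr
      rw [hμr] at h5
      rw [hμr]
      nlinarith
    have h2 : (a * (2:ℝ) ^ (C1 * n)) ^ 3 ≤ M ^ 3 := by
      calc (a * (2:ℝ) ^ (C1 * n)) ^ 3 = a ^ 3 * ((2:ℝ) ^ (C1 * n)) ^ 3 := by ring
        _ ≤ (p ^ 2 * Y) * ((2:ℝ) ^ (C1 * n)) ^ 3 := by gcongr
        _ = p ^ 2 * (Y * ((2:ℝ) ^ (C1 * n)) ^ 3) := by ring
        _ ≤ M ^ 2 * M := by gcongr
        _ = M ^ 3 := by ring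
    exact (pow_le_pow_iff_left₀ (by positivity) hM0.le (by norm_num)).1 h2

/-- the exponent of the loss -/
def C1 (n : ℕ) : ℕ := Nat.log 2 (Nat.log 2 n) / 20000

theorem tendsto_LL : Tendsto (fun n : ℕ => Nat.log 2 (Nat.log 2 n)) atTop atTop := by
  have h : Tendsto (fun n : ℕ => Nat.log 2 n) atTop atTop := by
    refine tendsto_atTop.2 fun b => ?_
    filter_upwards [eventually_ge_atTop (2 ^ b)] with n hn
    exact (Nat.le_log_iff_pow_le (by norm_num) (by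
      have : 0 < 2 ^ b := by positivity
      omega)).2 hn
  exact h.comp h

theorem sq_le_two_pow {x : ℕ} (hx : 4 ≤ x) : x ^ 2 ≤ 2 ^ x := by
  induction x, hx using Nat.le_induction with
  | base => norm_num
  | succ k hk ih =>
    rw [pow_succ 2 k]
    nlinarith

theorem main_n : ∀ᶠ n : ℕ in atTop, ∃ L : AddSubgroup (Fin n → ℤ), Good n (20 * C1 n + 100) L ∧
    ∀ (G : Type*) [AddCommGroup G] (e : L →+ G), Function.Injective e →
    ∀ (ι : Type) [Fintype ι] (g : ι → G) (a : G) (A' : Finset L),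
      (∀ s ∈ A', ∀ i, |(s : Fin n → ℤ) i| ≤ 2 ^ (n ^ 2)) →
      (∀ s ∈ A', ∃ S : Finset ι, e s = a + ∑ i ∈ S, g i) →
      (A'.card : ℝ) * (2 : ℝ) ^ (C1 n * n) ≤
        max ((boxSet L).ncard : ℝ) ((sums g Finset.univ).card : ℝ) := by
  obtain ⟨D, hD⟩ := claim_ev H137.PFR.pfr2Statement
  have hlogn : ∀ᶠ n : ℕ in atTop, Real.log n ≤ n / 1000 := by
    have h3 := Real.isLittleO_log_id_atTop.comp_tendsto (tendsto_natCast_atTop_atTop (R := ℝ))
    have h4 := h3.bound (show (0:ℝ) < 1/1000 by norm_num)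
    filter_upwards [h4] with n hn
    simp only [Function.comp, id] at hn
    have : Real.log n ≤ ‖Real.log n‖ := le_abs_self _
    rw [Real.norm_natCast] at hn
    linarith
  filter_upwards [hD, hlogn, tendsto_LL.eventually_ge_atTop (max 200000 (20000 * D)),
    eventually_ge_atTop 8] with n hn hlog hLL hn8
  have hLL1 : 200000 ≤ Nat.log 2 (Nat.log 2 n) := (le_max_left _ _).trans hLL
  have hLL2 : 20000 * D ≤ Nat.log 2 (Nat.log 2 n) := (le_max_right _ _).trans hLL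
  have hC1 : C1 n = Nat.log 2 (Nat.log 2 n) / 20000 := rfl
  obtain ⟨l, hl⟩ : ∃ l, l = Nat.log 2 (Nat.log 2 n) := ⟨_, rfl⟩
  rw [← hl] at hLL1 hLL2 hC1
  obtain ⟨c, hc⟩ : ∃ c, c = C1 n := ⟨_, rfl⟩
  rw [← hc] at hC1 ⊢
  have hc1 : 20000 * c ≤ l := by omega
  have hc2 : D ≤ c := by omega
  obtain ⟨μ, hμ⟩ : ∃ μ, μ = 20 * c + 100 := ⟨_, rfl⟩
  rw [← hμ]
  obtain ⟨m, hm⟩ : ∃ m, m = 8 * (2 * c + 13 + μ) := ⟨_, rfl⟩
  have hm64 : 64 * m ≤ l := by omega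
  have hn0 : (0 : ℝ) < n := by
    have : (8 : ℝ) ≤ n := by exact_mod_cast hn8
    linarith
  have hlog1 : Nat.log 2 n ≠ 0 := by
    intro h0
    rw [h0] at hl
    simp at hl
    omega
  have h2l : 2 ^ l ≤ Nat.log 2 n := by
    rw [hl]; exact Nat.pow_log_le_self 2 hlog1
  have hlogn2 : (Nat.log 2 n : ℝ) ≤ Real.logb 2 n := by
    rw [Real.le_logb_iff_rpow_le (by norm_num) hn0, Real.rpow_natCast]
    exact_mod_cast Nat.pow_log_le_self 2 (by omega)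
  have hκL : (((2 ^ m : ℕ) : ℝ)) ^ 64 ≤ Real.logb 2 (n : ℝ) := by
    refine le_trans ?_ hlogn2
    have h1 : (2 ^ m) ^ 64 ≤ Nat.log 2 n := by
      rw [← pow_mul]
      refine le_trans (Nat.pow_le_pow_right (by norm_num) ?_) h2l
      omega
    exact_mod_cast h1
  have hDκ : D ≤ 2 ^ m := by
    have h1 : m < 2 ^ m := Nat.lt_two_pow_self
    omega
  have hsq : l ^ 2 ≤ 2 ^ l := sq_le_two_pow (by omega)
  have hBig : H139R2.Big n μ := by
    refine ⟨?_, hlog⟩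
    have h1 : Real.logb 2 n * Real.log 2 = Real.log n := by
      unfold Real.logb
      field_simp
    have h2 : (1:ℝ) / 2 ≤ Real.log 2 := by
      have := Real.log_two_gt_d9
      linarith
    have h3 : ((l ^ 2 : ℕ) : ℝ) ≤ Real.logb 2 n := by
      refine le_trans ?_ hlogn2
      exact_mod_cast hsq.trans h2l
    have h4 : (2 * (88 + 8 * μ) : ℕ) ≤ l ^ 2 := by
      nlinarith
    have h5 : ((2 * (88 + 8 * μ) : ℕ) : ℝ) ≤ ((l ^ 2 : ℕ) : ℝ) := by exact_mod_cast h4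
    push_cast at h5
    have h6 : 0 ≤ Real.logb 2 n := le_trans (by positivity) h3
    rw [← h1]
    push_cast at h3
    nlinarith
  have hμn : μ + 4 ≤ n := by
    have h1 := hBig.mu_le
    have h2 := hBig.n_ge
    have h3 : ((μ + 4 : ℕ) : ℝ) ≤ (n : ℝ) := by
      push_cast
      linarith
    exact_mod_cast h3
  obtain ⟨L, hL⟩ := lattice_at hBig
  refine ⟨L, hL, ?_⟩
  intro G _ e he ι _ g a A' hAb hA'
  have hC := hn (2 ^ m) μ hDκ hκL hμn L hL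
  have hμn2 : μ + 4 ≤ n ^ 2 := hμn.trans (Nat.le_self_pow two_ne_zero n)
  have hcore := core_gen hC (fun V d hd S hS ⟨z, hz⟩ => pts_bound hμn2 hL V hd S hS z hz)
    e he g a A' hAb hA'
  exact num_max hn8 hμ hm _ _ _ hL.card (by positivity) (by positivity) hcore

end Pool.Agent.Y336.PF
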