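import Pool.Agent.Y336.PF.ClaimV

/-! The conditions hold for all large `n`, uniformly in a slowly growing number of generators. -/

set_option autoImplicit false

namespace Pool.Agent.Y336.PF

open Filter Topology H460

theorem pow_nine_le : ∀ᶠ J : ℕ in atTop, 32 * ((J : ℝ) + 1) ^ 9 ≤ 2 ^ J := by
  have h1 : Tendsto (fun J : ℕ => ((J : ℝ) ^ 9 / 2 ^ J)) atTop (𝓝 0) :=
    tendsto_pow_const_div_const_pow_of_one_lt 9 (r := (2 : ℝ)) (by norm_num)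
  have h2 : ∀ᶠ J : ℕ in atTop, ((J : ℝ) ^ 9 / 2 ^ J) < 1 / (32 * 512) := by
    apply h1.eventually (gt_mem_nhds _)
    positivity
  filter_upwards [h2, eventually_ge_atTop 1] with J hJ hJ1
  have hJ1' : (1 : ℝ) ≤ J := by exact_mod_cast hJ1
  have h2J : (0 : ℝ) < 2 ^ J := by positivity
  rw [div_lt_iff₀ h2J] at hJ
  have h3 : ((J : ℝ) + 1) ^ 9 ≤ (2 * J) ^ 9 := by
    apply pow_le_pow_left₀ (by positivity)
    linarith
  have h6 : (2 * (J : ℝ)) ^ 9 = 512 * (J : ℝ) ^ 9 := by ring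
  rw [h6] at h3
  linarith

theorem cube_le : ∀ᶠ n : ℕ in atTop, (Real.logb 2 (n : ℝ)) ^ 3 ≤ (n : ℝ) / 8 := by
  have h1 : (fun x : ℝ => Real.log x ^ 3) =o[atTop] (fun x : ℝ => x) :=
    Real.isLittleO_pow_log_id_atTop (n := 3)
  have hl : 0 < Real.log 2 := Real.log_pos (by norm_num)
  have hc : 0 < (Real.log 2) ^ 3 / 8 := by positivity
  have h2 := (h1.bound hc)
  have h3 := tendsto_natCast_atTop_atTop (R := ℝ) |>.eventually h2
  filter_upwards [h3, eventually_ge_atTop 1] with n hn hn1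
  have hn1' : (1 : ℝ) ≤ n := by exact_mod_cast hn1
  have hlog : 0 ≤ Real.log n := Real.log_nonneg hn1'
  rw [Real.norm_of_nonneg (by positivity), Real.norm_of_nonneg (by positivity)] at hn
  have h4 : Real.logb 2 (n : ℝ) = Real.log n / Real.log 2 := rfl
  rw [h4, div_pow, div_le_iff₀ (by positivity)]
  linarith

/-- the reverse Minkowski parameters exist for all large `n`, uniformly in `κ` -/
theorem par_ev {C0 : ℝ} (hC0 : 1 ≤ C0) : ∃ D : ℕ, ∀ᶠ n : ℕ in atTop, ∀ κ : ℕ, D ≤ κ →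
    (κ : ℝ) ^ 64 ≤ Real.logb 2 (n : ℝ) → Par (1 / (64 * (κ : ℝ)) / 2) ((κ : ℝ) + 1) (1 / 2) C0 n := by
  obtain ⟨D, hD⟩ := exists_nat_ge (8192 + 48 * (40960 * C0) ^ 2 * 128 ^ 6 +
    82 * 128 * (1 + 40960 * C0 * 128 ^ 3))
  refine ⟨D, ?_⟩
  filter_upwards [eventually_ge_atTop 8, RMc_tendsto_J.eventually pow_nine_le, cube_le,
    RMc_tendsto_J.eventually_ge_atTop 1] with n hn8 hJpow hcube hJ1 κ hDκ hκL
  set L : ℝ := Real.logb 2 (n : ℝ) with hL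
  set J : ℕ := ⌊L ^ (1 / 8 : ℝ)⌋₊ with hJ
  have hn8' : (8 : ℝ) ≤ n := by exact_mod_cast hn8
  have hn0 : (0 : ℝ) < n := by linarith
  have hDκ' : (D : ℝ) ≤ κ := by exact_mod_cast hDκ
  set x : ℝ := (κ : ℝ) with hx
  have hA : 8192 + 48 * (40960 * C0) ^ 2 * 128 ^ 6 + 82 * 128 * (1 + 40960 * C0 * 128 ^ 3) ≤ x :=
    hD.trans hDκ'
  have hA1 : 0 ≤ 48 * (40960 * C0) ^ 2 * 128 ^ 6 := by positivity
  have hA2 : 0 ≤ 82 * 128 * (1 + 40960 * C0 * 128 ^ 3) := by positivity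
  have hx1 : 8192 ≤ x := by linarith
  have hx0 : 0 < x := by linarith
  have hxa : 48 * (40960 * C0) ^ 2 * 128 ^ 6 ≤ x := by linarith
  have hxb : 82 * 128 * (1 + 40960 * C0 * 128 ^ 3) ≤ x := by linarith
  have hx1' : 1 ≤ x := by linarith
  -- powers of x
  have hp2 : x ^ 2 ≤ x ^ 64 := pow_le_pow_right₀ hx1' (by norm_num)
  have hp5 : x ^ 5 ≤ x ^ 64 := pow_le_pow_right₀ hx1' (by norm_num)
  have hxx : 8192 * x ≤ x ^ 2 := by nlinarith
  have hL0 : 0 < L := by nlinarith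
  have hLn : L ≤ n := by
    have h1 : L ^ 3 ≤ n := by linarith
    have h2 : 1 ≤ L := by nlinarith
    have h3 : L ≤ L ^ 3 := le_self_pow₀ h2 (by norm_num)
    linarith
  -- J
  have hJx : x ^ 8 ≤ (J : ℝ) := by
    have h1 : ((κ ^ 8 : ℕ) : ℝ) ≤ L ^ (1 / 8 : ℝ) := by
      push_cast
      have h2 : x ^ 8 = ((x ^ 64) : ℝ) ^ (1 / 8 : ℝ) := by
        rw [← Real.rpow_natCast x 64, ← Real.rpow_mul hx0.le, ← Real.rpow_natCast x 8]
        norm_num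
      rw [← hx, h2]
      exact Real.rpow_le_rpow (by positivity) hκL (by norm_num)
    have h3 : κ ^ 8 ≤ J := Nat.le_floor h1
    have h4 : ((κ ^ 8 : ℕ) : ℝ) ≤ (J : ℝ) := by exact_mod_cast h3
    push_cast at h4
    exact h4
  have hxJ : x ≤ J := (le_self_pow₀ hx1' (by norm_num)).trans hJx
  have hε : (0 : ℝ) < 1 / (64 * x) / 2 := by positivity
  have he : 1 / (64 * x) / 2 = 1 / (128 * x) := by rw [div_div]; ring_nf
  have hinv : ∀ y : ℝ, y / (1 / (64 * x) / 2) = y * (128 * x) := by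
    intro y; rw [he]; field_simp
  refine par_of hε ?_ (by linarith) (by norm_num) hC0 (by omega) ?_ ?_ ?_ ?_ ?_ ?_ ?_ hJ1
  · rw [he, div_le_one (by positivity)]
    linarith
  · -- logb 2 (κ+1) + 2 ≤ L
    have h1 : Real.logb 2 (x + 1) ≤ x + 1 := by
      rw [Real.logb_le_iff_le_rpow (by norm_num) (by linarith)]
      have h2 : ((κ + 1 : ℕ) : ℝ) ≤ 2 ^ (κ + 1) := by exact_mod_cast (Nat.lt_two_pow_self).le
      have h3 : (2 : ℝ) ^ (x + 1) = 2 ^ (κ + 1) := by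
        rw [hx, ← Nat.cast_succ, Real.rpow_natCast]
      rw [h3]
      push_cast at h2
      exact h2
    linarith
  · rw [hinv]
    linarith
  · linarith
  · linarith
  · -- powers of two
    have h1 : 16 * (x + 1) / (1 / 2) = 32 * (x + 1) := by ring
    rw [h1]
    calc 32 * (x + 1) * ((J : ℝ) + 1) ^ 8 ≤ 32 * ((J : ℝ) + 1) * ((J : ℝ) + 1) ^ 8 := by gcongr
      _ = 32 * ((J : ℝ) + 1) ^ 9 := by ring
      _ ≤ 2 ^ J := hJpow
  · have h1 : 82 / (1 / (64 * x) / 2) = 82 * 128 * x := by rw [hinv]; ring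
    have h2 : 40960 * C0 / (1 / (64 * x) / 2) ^ 3 = 40960 * C0 * 128 ^ 3 * x ^ 3 := by
      rw [he]; field_simp
    rw [h1, h2]
    have h3 : 1 + 40960 * C0 * 128 ^ 3 * x ^ 3 ≤ (1 + 40960 * C0 * 128 ^ 3) * x ^ 3 := by
      have h4 : 1 ≤ x ^ 3 := one_le_pow₀ hx1'
      nlinarith
    calc 82 * 128 * x * (1 + 40960 * C0 * 128 ^ 3 * x ^ 3) * L ^ 2
        ≤ 82 * 128 * x * ((1 + 40960 * C0 * 128 ^ 3) * x ^ 3) * L ^ 2 := by gcongr
      _ = (82 * 128 * (1 + 40960 * C0 * 128 ^ 3)) * x ^ 4 * L ^ 2 := by ring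
      _ ≤ x * x ^ 4 * L ^ 2 := by gcongr
      _ = x ^ 5 * L ^ 2 := by ring
      _ ≤ L * L ^ 2 := by
        gcongr
        exact hp5.trans hκL
      _ = L ^ 3 := by ring
      _ ≤ (n : ℝ) / 8 := hcube
      _ = 1 / 2 * n / 4 := by ring
  · have h2 : 40960 * C0 / (1 / (64 * x) / 2) ^ 3 = 40960 * C0 * 128 ^ 3 * x ^ 3 := by
      rw [he]; field_simp
    rw [h2]
    calc 12 * (x + 1) * (40960 * C0 * 128 ^ 3 * x ^ 3) ^ 2 / (1 / 2)
        = 24 * (x + 1) * ((40960 * C0) ^ 2 * 128 ^ 6) * x ^ 6 := by ring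
      _ ≤ 24 * (2 * x) * ((40960 * C0) ^ 2 * 128 ^ 6) * x ^ 6 := by
        gcongr
        linarith
      _ = (48 * (40960 * C0) ^ 2 * 128 ^ 6) * x ^ 7 := by ring
      _ ≤ x * x ^ 7 := by gcongr
      _ = x ^ 8 := by ring
      _ ≤ J := hJx

/-- claim* for all large `n`, uniformly in `κ` and `μ` -/
theorem claim_ev (hP : PFR2Statement) : ∃ D : ℕ, ∀ᶠ n : ℕ in atTop, ∀ κ μ : ℕ, D ≤ κ →
    (κ : ℝ) ^ 64 ≤ Real.logb 2 (n : ℝ) → μ + 4 ≤ n →
    ∀ L : AddSubgroup (Fin n → ℤ), Good n μ L → ClaimGen n μ κ L := by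
  obtain ⟨C0, hC0, hRM⟩ := rm_at hP
  obtain ⟨D, hD⟩ := par_ev hC0
  refine ⟨max D 8192, ?_⟩
  filter_upwards [hD, eventually_ge_atTop 1] with n hn hn1 κ μ hκ hκL hμ L hL
  have hκ1 : D ≤ κ := (le_max_left _ _).trans hκ
  have hκ2 : 8192 ≤ κ := (le_max_right _ _).trans hκ
  have hpar := hn κ hκ1 hκL
  set x : ℝ := (κ : ℝ) with hx
  have hx1 : (8192 : ℝ) ≤ x := by rw [hx]; exact_mod_cast hκ2
  have hx0 : 0 < x := by linarith
  have hε0 : (0 : ℝ) < 1 / (64 * x) := by positivity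
  have hn0 : (0 : ℝ) < n := by exact_mod_cast hn1
  have he : 1 / (64 * x) / 2 = 1 / (128 * x) := by rw [div_div]; ring_nf
  have hε1 : 1 / (64 * x) / 2 ≤ 1 := by
    rw [he, div_le_one (by positivity)]; linarith
  have hR := hRM n _ _ _ (by positivity) hε1 (by linarith) (by norm_num) hpar
  have hp2 : x ^ 3 ≤ x ^ 64 := pow_le_pow_right₀ (by linarith) (by norm_num)
  have hL' : x ^ 3 ≤ Real.logb 2 (n : ℝ) := hp2.trans hκL
  have hnL : (n : ℝ) = (2 : ℝ) ^ (Real.logb 2 (n : ℝ)) := by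
    rw [Real.rpow_logb (by norm_num) (by norm_num) hn0]
  have hpow4 : 4 * (16 * x + 4) < 4 ^ κ := by
    have h1 : ((κ : ℕ) : ℝ) < 2 ^ κ := by exact_mod_cast Nat.lt_two_pow_self
    have h2 : (4 : ℝ) ^ κ = 2 ^ κ * 2 ^ κ := by
      rw [← mul_pow]; norm_num
    rw [h2]
    nlinarith
  have ha : (2 : ℝ) ^ (κ + 1) ≤ (n : ℝ) ^ (1 / (64 * x) / 2) := by
    rw [hnL, ← Real.rpow_mul (by norm_num), ← Real.rpow_natCast]
    apply Real.rpow_le_rpow_of_exponent_le (by norm_num)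
    rw [he, mul_one_div, le_div_iff₀ (by positivity)]
    push_cast
    rw [← hx]
    nlinarith [mul_pos hx0 hx0, mul_pos (mul_pos hx0 hx0) hx0]
  have hfew := few_at (κ := κ) (i0 := κ) hε0 hn1 hR hpow4 ha
  refine claim_gen (by omega) ?_ hμ hfew L hL
  have h2 : ((2 ^ (64 * (κ + 1)) : ℕ) : ℝ) ≤ (n : ℝ) := by
    rw [hnL]
    push_cast
    rw [← Real.rpow_natCast]
    apply Real.rpow_le_rpow_of_exponent_le (by norm_num)
    push_cast
    rw [← hx]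
    nlinarith [mul_pos hx0 hx0, mul_pos (mul_pos hx0 hx0) hx0]
  exact_mod_cast h2

end Pool.Agent.Y336.PF
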