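import Pool.Agent.Y336.PF.ChainV
import Pool.Agent.H460R2.BadT

/-! A sublattice with large `w` produces a bad tuple. -/

set_option autoImplicit false

namespace Pool.Agent.Y336.PF

open H460

/-- the values of `V` on `Γ` are points of `L` (in the scale `2 ^ (-n²)`) -/
def IntoL {J : Type*} {n : ℕ} (V : (J → ℤ) →+ EuclideanSpace ℝ (Fin n))
    (L : AddSubgroup (Fin n → ℤ)) (Γ : AddSubgroup (J → ℤ)) : Prop :=
  ∀ x ∈ Γ, ∃ y ∈ L, V x = (2 : ℝ) ^ (-((n ^ 2 : ℕ) : ℤ)) • emb (Fin n) y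

theorem IntoL.intOn {J : Type*} {n : ℕ} {V : (J → ℤ) →+ EuclideanSpace ℝ (Fin n)}
    {L : AddSubgroup (Fin n → ℤ)} {Γ : AddSubgroup (J → ℤ)} (h : IntoL V L Γ) :
    IntOn V (n ^ 2) Γ := fun x hx => by
  obtain ⟨y, _, hy⟩ := h x hx
  exact ⟨y, hy⟩

theorem IntoL.mono {J : Type*} {n : ℕ} {V : (J → ℤ) →+ EuclideanSpace ℝ (Fin n)}
    {L : AddSubgroup (Fin n → ℤ)} {Γ Γ' : AddSubgroup (J → ℤ)} (h : IntoL V L Γ)
    (hle : Γ' ≤ Γ) : IntoL V L Γ' := fun x hx => h x (hle hx)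

theorem scaled_inj {n : ℕ} {c : ℝ} (hc : c ≠ 0) {y y' : Fin n → ℤ}
    (h : c • emb (Fin n) y = c • emb (Fin n) y') : y = y' :=
  emb_injective (smul_right_injective _ hc h)

theorem IntoL.pull_le {J : Type*} {n : ℕ} {V : (J → ℤ) →+ EuclideanSpace ℝ (Fin n)}
    {L : AddSubgroup (Fin n → ℤ)} {Γ : AddSubgroup (J → ℤ)} (h : IntoL V L Γ) :
    pull V (n ^ 2) Γ ≤ L := by
  intro y hy
  obtain ⟨x, hx, hxy⟩ := mem_pull.1 hy
  obtain ⟨y', hy', hxy'⟩ := h x hx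
  have h1 : y = y' := scaled_inj (by positivity) (hxy.symm.trans hxy')
  rw [h1]
  exact hy'

/-- If `w` of a subgroup of `ℤ^J` is not small, its `Φ`-image cannot have rank `≥ n/2`. -/
theorem exists_badV {n μ κ : ℕ} {L : AddSubgroup (Fin n → ℤ)} (hL : Good n μ L)
    (hμ : μ + 4 ≤ n ^ 2)
    (hn : 2 * Real.sqrt Real.pi ^ (κ * n) * (n : ℝ) ^ ((n : ℝ) / 64) ≤ (n : ℝ) ^ ((n : ℝ) / 32))
    {J : Type} [Fintype J] (hJ : Fintype.card J ≤ κ * n)
    (Φ : (J → ℤ) →+ EuclideanSpace ℝ (Fin n)) (Γ : AddSubgroup (J → ℤ)) (hint : IntoL Φ L Γ)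
    (hΓ : 1 / 2 ≤ w (Γ.map (embV Φ)) * (n : ℝ) ^ ((n : ℝ) / 64)) :
    rk (Γ.map Φ) ≤ n / 2 := by
  by_contra hcon
  rw [not_le] at hcon
  obtain ⟨Λ, hΛW, hΛs, hΛr, hΛw⟩ := exists_chainV Φ (n ^ 2) Γ hint.intOn (n / 2) hcon.le
  have hL' : Disc (L.map (emb (Fin n))) := disc_emb L
  have hΛL : ∀ j, Λ j ≤ L := fun j => (hΛW j).trans hint.pull_le
  have hΛL' : ∀ j, (Λ j).map (emb (Fin n)) ≤ L.map (emb (Fin n)) := fun j =>
    AddSubgroup.map_mono (hΛL j)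
  set V : ℕ → Submodule ℝ (EuclideanSpace ℝ (Fin n)) := fun j =>
    Submodule.span ℝ (((Λ j).map (emb (Fin n)) : AddSubgroup (EuclideanSpace ℝ (Fin n))) :
      Set (EuclideanSpace ℝ (Fin n))) with hV
  have hVle : ∀ j < n / 2, V j ≤ V (j + 1) := by
    intro j hj
    exact Submodule.span_mono (AddSubgroup.map_mono (hΛs j hj))
  have hVdim : ∀ j ≤ n / 2, Module.finrank ℝ (V j) = j := fun j hj => hΛr j hj
  have hcutle : ∀ j, (Λ j).map (emb (Fin n)) ≤ cut (L.map (emb (Fin n))) (V j) := by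
    intro j x hx
    exact ⟨hΛL' j hx, Submodule.subset_span hx⟩
  have hsat : ∀ j, Sat (L.map (emb (Fin n))) (V j) := by
    intro j
    apply le_antisymm
    · rw [Submodule.span_le]
      intro x hx
      exact hx.2
    · exact Submodule.span_mono (hcutle j)
  obtain ⟨b, hbL, hbi, hbr, hbp⟩ := exists_adapted hL' (n / 2) V hVle hVdim (fun j _ => hsat j)
  choose c hcL hcb using hbL
  have hcb' : (fun i => emb (Fin n) (c i)) = b := funext hcb
  have hgs : ∀ i, gs c i = InnerProductSpace.gramSchmidt ℝ b i := by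
    intro i
    unfold gs
    rw [hcb']
  -- rank of the cuts
  have hrkcut : ∀ j ≤ n / 2, rk (cut (L.map (emb (Fin n))) (V j)) = j := by
    intro j hj
    unfold rk
    rw [hsat j]
    exact hVdim j hj
  have hdcut : ∀ j, Disc (cut (L.map (emb (Fin n))) (V j)) := fun j => hL'.mono inf_le_left
  have hpi := badT_sqrtpi
  have hpi0 : 0 < Real.sqrt Real.pi := by linarith
  set Γt := Γ.map (embV Φ) with hΓt
  have hwΓ : 0 < w Γt := w_pos (disc_embV Φ Γ)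
  apply hL.notuple c hcL
  refine ⟨?_, ?_, ?_⟩
  · rw [hcb']; exact hbi
  · intro i j hij
    rw [hgs, hcb j]
    exact hbr i j hij
  · intro j
    have hj1 : (j : ℕ) + 1 ≤ n / 2 := j.2
    have hprod := hbp j
    have hgsprod : ∏ i ∈ Finset.Iic j, ‖gs c i‖ =
        ∏ i ∈ Finset.Iic j, ‖InnerProductSpace.gramSchmidt ℝ b i‖ :=
      Finset.prod_congr rfl (fun i _ => by rw [hgs])
    rw [hgsprod]
    set P := ∏ i ∈ Finset.Iic j, ‖InnerProductSpace.gramSchmidt ℝ b i‖ with hP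
    set wc := w (cut (L.map (emb (Fin n))) (V ((j : ℕ) + 1))) with hwc
    have hwc0 : 0 < wc := w_pos (hdcut _)
    have hPeq : P = Real.sqrt Real.pi ^ ((j : ℕ) + 1) / wc := by
      rw [eq_div_iff hwc0.ne']; exact hprod
    constructor
    · -- lower bound
      have hwle := w_le (hdcut ((j : ℕ) + 1)) (n ^ 2 - μ - 4)
      rw [hrkcut _ hj1] at hwle
      have hNN : NN n μ = 16 * 2 ^ (n ^ 2 - μ - 4) := by
        unfold NN
        have : n ^ 2 - μ = 4 + (n ^ 2 - μ - 4) := by omega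
        rw [this, pow_add]
        norm_num
      have hq : ((1 / 4 : ℝ) ^ (n ^ 2 - μ - 4)) = 256 / NN n μ ^ 2 := by
        rw [hNN, mul_pow, ← pow_mul, mul_comm (n ^ 2 - μ - 4) 2, pow_mul]
        norm_num
        rw [div_pow, one_pow]
        field_simp
      have hth : th (cut (L.map (emb (Fin n))) (V ((j : ℕ) + 1))) 0
          ((1 / 4 : ℝ) ^ (n ^ 2 - μ - 4)) ≤ 2 := by
        refine (th_mono hL' inf_le_left 0 (by positivity)).trans ?_
        rw [hq]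
        exact hL.theta
      have h2 : wc ≤ 2 / 2 ^ ((n ^ 2 - μ - 4) * ((j : ℕ) + 1)) :=
        hwle.trans (div_le_div_of_nonneg_right hth (by positivity))
      rw [hPeq, le_div_iff₀ hwc0]
      have h3 : NN n μ / 16 = 2 ^ (n ^ 2 - μ - 4) := by
        rw [hNN]; ring
      rw [h3]
      have h4 : (1 : ℝ) ≤ Real.sqrt Real.pi ^ ((j : ℕ) + 1) := one_le_pow₀ hpi
      refine le_trans ?_ h4
      rw [← pow_mul]
      have hpos : (0 : ℝ) < 2 ^ ((n ^ 2 - μ - 4) * ((j : ℕ) + 1)) := by positivity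
      calc 1 / 2 * (2 : ℝ) ^ ((n ^ 2 - μ - 4) * ((j : ℕ) + 1)) * wc
          ≤ 1 / 2 * (2 : ℝ) ^ ((n ^ 2 - μ - 4) * ((j : ℕ) + 1)) *
            (2 / 2 ^ ((n ^ 2 - μ - 4) * ((j : ℕ) + 1))) :=
            mul_le_mul_of_nonneg_left h2 (by positivity)
        _ = 1 := by field_simp
    · -- upper bound
      have hmono : w ((Λ ((j : ℕ) + 1)).map (emb (Fin n))) ≤ wc := by
        apply w_mono (hdcut _) (hcutle _)
        rw [hrkcut _ hj1]
        exact hΛr _ hj1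
      have hch := hΛw _ hj1
      have hrk : rk Γt ≤ κ * n := (rk_embV Φ Γ).trans hJ
      have hT : (0 : ℝ) < 2 ^ (n ^ 2 * ((j : ℕ) + 1)) := by positivity
      have h5 : Real.sqrt Real.pi ^ ((j : ℕ) + 1) * (w Γt / Real.sqrt Real.pi ^ rk Γt) ≤
          (2 : ℝ) ^ (n ^ 2 * ((j : ℕ) + 1)) * wc :=
        hch.trans (mul_le_mul_of_nonneg_left hmono hT.le)
      have hTT : TT n ^ ((j : ℕ) + 1) = (2 : ℝ) ^ (n ^ 2 * ((j : ℕ) + 1)) := by
        unfold TT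
        rw [← pow_mul]
      rw [hTT, hPeq, div_le_iff₀ hwc0]
      have hs0 : (0 : ℝ) < Real.sqrt Real.pi ^ rk Γt := by positivity
      have h6 : Real.sqrt Real.pi ^ ((j : ℕ) + 1) * w Γt ≤
          (2 : ℝ) ^ (n ^ 2 * ((j : ℕ) + 1)) * wc * Real.sqrt Real.pi ^ rk Γt := by
        have := mul_le_mul_of_nonneg_right h5 hs0.le
        have e : Real.sqrt Real.pi ^ ((j : ℕ) + 1) * (w Γt / Real.sqrt Real.pi ^ rk Γt) *
            Real.sqrt Real.pi ^ rk Γt = Real.sqrt Real.pi ^ ((j : ℕ) + 1) * w Γt := by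
          field_simp
        rw [e] at this
        exact this
      have hn0 : (0 : ℝ) ≤ (n : ℝ) ^ ((n : ℝ) / 64) := by positivity
      -- multiply by `2 n^(n/64)`
      have h7 : Real.sqrt Real.pi ^ ((j : ℕ) + 1) ≤
          Real.sqrt Real.pi ^ ((j : ℕ) + 1) * w Γt * (2 * (n : ℝ) ^ ((n : ℝ) / 64)) := by
        have h8 : 1 ≤ w Γt * (2 * (n : ℝ) ^ ((n : ℝ) / 64)) := by linarith
        have h9 : (0 : ℝ) ≤ Real.sqrt Real.pi ^ ((j : ℕ) + 1) := by positivity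
        nlinarith
      have h10 : Real.sqrt Real.pi ^ rk Γt ≤ Real.sqrt Real.pi ^ (κ * n) :=
        pow_le_pow_right₀ hpi hrk
      calc Real.sqrt Real.pi ^ ((j : ℕ) + 1)
          ≤ Real.sqrt Real.pi ^ ((j : ℕ) + 1) * w Γt * (2 * (n : ℝ) ^ ((n : ℝ) / 64)) := h7
        _ ≤ (2 : ℝ) ^ (n ^ 2 * ((j : ℕ) + 1)) * wc * Real.sqrt Real.pi ^ rk Γt *
            (2 * (n : ℝ) ^ ((n : ℝ) / 64)) := mul_le_mul_of_nonneg_right h6 (by positivity)
        _ ≤ (2 : ℝ) ^ (n ^ 2 * ((j : ℕ) + 1)) * wc * Real.sqrt Real.pi ^ (κ * n) *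
            (2 * (n : ℝ) ^ ((n : ℝ) / 64)) := by
            apply mul_le_mul_of_nonneg_right _ (by positivity)
            exact mul_le_mul_of_nonneg_left h10 (by positivity)
        _ = (2 : ℝ) ^ (n ^ 2 * ((j : ℕ) + 1)) * wc *
            (2 * Real.sqrt Real.pi ^ (κ * n) * (n : ℝ) ^ ((n : ℝ) / 64)) := by ring
        _ ≤ (2 : ℝ) ^ (n ^ 2 * ((j : ℕ) + 1)) * wc * (n : ℝ) ^ ((n : ℝ) / 32) :=
            mul_le_mul_of_nonneg_left hn (by positivity)
        _ = (2 : ℝ) ^ (n ^ 2 * ((j : ℕ) + 1)) * (n : ℝ) ^ ((n : ℝ) / 32) * wc := by ring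


end Pool.Agent.Y336.PF
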