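import Pool.Agent.Y336.PF.EmbV

/-! Kernel, image and a flag for the lattice `{(x, V x)}`. -/

set_option autoImplicit false

namespace Pool.Agent.Y336.PF

open H460

theorem snd_embV {J : Type*} [Fintype J] {n : ℕ} (V : (J → ℤ) →+ EuclideanSpace ℝ (Fin n))
    (x : J → ℤ) : Chain_snd J n (embV V x) = V x := by
  ext i
  simp [Chain_snd, embV]

theorem rk_pull {J : Type*} {n : ℕ} {V : (J → ℤ) →+ EuclideanSpace ℝ (Fin n)} {τ : ℕ}
    {Γ : AddSubgroup (J → ℤ)} (h : IntOn V τ Γ) :
    rk ((pull V τ Γ).map (emb (Fin n))) = rk (Γ.map V) := by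
  rw [map_eq_scl h, Chain_rk_scl (by positivity)]

/-- kernel and image of `V` on a subgroup of `ℤ^J` -/
theorem w_kernelV {J : Type*} [Fintype J] {n : ℕ} (V : (J → ℤ) →+ EuclideanSpace ℝ (Fin n))
    (τ : ℕ) (L : AddSubgroup (J → ℤ)) (hint : IntOn V τ L) :
    rk ((pull V τ L).map (emb (Fin n))) ≤ rk (L.map (embV V)) ∧
    w (L.map (embV V)) ≤
      Real.sqrt Real.pi ^ (rk (L.map (embV V)) - rk ((pull V τ L).map (emb (Fin n)))) *
      ((2 : ℝ) ^ (τ * rk ((pull V τ L).map (emb (Fin n)))) *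
        w ((pull V τ L).map (emb (Fin n)))) := by
  set M := L.map (embV V) with hM
  set Λ := (pull V τ L).map (emb (Fin n)) with hΛ
  set K : AddSubgroup (J → ℤ) := L ⊓ V.ker with hK
  set f := Chain_snd J n with hf
  have hfe : ∀ x, f (embV V x) = V x := snd_embV V
  set U : Submodule ℝ (EuclideanSpace ℝ (J ⊕ Fin n)) :=
    Submodule.span ℝ (K.map (embV V) : Set _) with hU
  have hUf : U ≤ LinearMap.ker f := by
    rw [hU, Submodule.span_le]
    rintro _ ⟨x, hx, rfl⟩
    have h1 : V x = 0 := (AddMonoidHom.mem_ker).mp hx.2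
    show f (embV V x) = 0
    rw [hfe, h1]
  have hWf : ∀ x, f (embV V x) = 0 → V x = 0 := by
    intro x hx
    rwa [hfe] at hx
  have hcut : cut M U = K.map (embV V) := by
    ext y
    constructor
    · rintro ⟨⟨x, hx, rfl⟩, hy⟩
      have h1 : f (embV V x) = 0 := hUf hy
      exact ⟨x, ⟨hx, (AddMonoidHom.mem_ker).mpr (hWf x h1)⟩, rfl⟩
    · rintro ⟨x, hx, rfl⟩
      exact ⟨⟨x, hx.1, rfl⟩, Submodule.subset_span ⟨x, hx, rfl⟩⟩
  have hSat : Sat M U := by
    unfold Sat
    rw [hcut]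
  have hMd : Disc M := disc_embV V L
  have hΛd : Disc Λ := disc_emb _
  have hfP : ∀ y, f (((Uᗮ).starProjection : _ →L[ℝ] _) y) = f y := by
    intro y
    have h1 : y - (Uᗮ).starProjection y ∈ U := by
      have h2 := Submodule.sub_starProjection_mem_orthogonal (K := Uᗮ) y
      rwa [Submodule.orthogonal_orthogonal] at h2
    have h3 : f (y - (Uᗮ).starProjection y) = 0 := hUf h1
    rw [map_sub, sub_eq_zero] at h3
    exact h3.symm
  have hmap : (quo M U).map f.toAddMonoidHom = scl ((2 : ℝ) ^ (-(τ : ℤ))) Λ := by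
    rw [hΛ, ← map_eq_scl hint]
    ext z
    constructor
    · rintro ⟨_, ⟨_, ⟨x, hx, rfl⟩, rfl⟩, rfl⟩
      refine ⟨x, hx, ?_⟩
      have h1 := hfP (embV V x)
      rw [hfe] at h1
      exact h1.symm
    · rintro ⟨x, hx, rfl⟩
      refine ⟨_, ⟨_, ⟨x, hx, rfl⟩, rfl⟩, ?_⟩
      have h1 := hfP (embV V x)
      rw [hfe] at h1
      exact h1
  have hQd : Disc (quo M U) := disc_quo hMd hSat
  have hinj : Set.InjOn f (quo M U : Set _) := by
    rintro _ ⟨_, ⟨x, hx, rfl⟩, rfl⟩ _ ⟨_, ⟨y, hy, rfl⟩, rfl⟩ hxy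
    have h1 : f (embV V x) = f (embV V y) := by
      have h2 := hfP (embV V x)
      have h3 := hfP (embV V y)
      rw [← h2, ← h3]
      exact hxy
    have h4 : f (embV V (x - y)) = 0 := by
      rw [map_sub, map_sub, h1, sub_self]
    have h5 := hWf _ h4
    have h6 : embV V (x - y) ∈ U :=
      Submodule.subset_span ⟨x - y, ⟨L.sub_mem hx hy, (AddMonoidHom.mem_ker).mpr h5⟩, rfl⟩
    have h7 : (Uᗮ).starProjection (embV V (x - y)) = 0 := by
      rw [Submodule.starProjection_apply_eq_zero_iff]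
      rwa [Submodule.orthogonal_orthogonal]
    rw [map_sub, map_sub, sub_eq_zero] at h7
    exact h7
  have hscd : Disc ((quo M U).map f.toAddMonoidHom) := by
    rw [hmap]
    exact Chain_disc_scl (by positivity) hΛd
  obtain ⟨hr, hw⟩ := w_map_le hQd f hinj (fun y _ => Chain_snd_norm y) hscd
  rw [hmap] at hr hw
  rw [Chain_rk_scl (by positivity)] at hr
  rw [w_scl hΛd] at hw
  have hrq := rk_quo hMd hSat
  have hwq := w_quo hMd hSat
  rw [← hr] at hrq
  have hc : w (cut M U) ≤ Real.sqrt Real.pi ^ rk (cut M U) := by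
    rw [hcut]
    exact w_embV_le V K
  have hsub : rk M - rk Λ = rk (cut M U) := by omega
  refine ⟨by omega, ?_⟩
  rw [hsub, hwq]
  have hpow : (2 : ℝ) ^ (-(-(τ : ℤ) * (rk Λ : ℤ))) = 2 ^ (τ * rk Λ) := by
    rw [neg_mul, neg_neg]
    rw [show ((τ : ℤ) * (rk Λ : ℤ)) = ((τ * rk Λ : ℕ) : ℤ) by push_cast; ring, zpow_natCast]
  rw [hpow] at hw
  exact mul_le_mul hc hw (w_nonneg hQd) (by positivity)

theorem rk_stepV {J : Type*} [Fintype J] {n : ℕ} (V : (J → ℤ) →+ EuclideanSpace ℝ (Fin n))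
    (A B : AddSubgroup (J → ℤ)) (hAB : A ≤ B) (j : J) (hA : ∀ x, x ∈ B → x j = 0 → x ∈ A) :
    rk (B.map V) ≤ rk (A.map V) + 1 := by
  by_cases hall : ∀ x ∈ B, x j = 0
  · have h1 : B ≤ A := fun x hx => hA x hx (hall x hx)
    rw [le_antisymm h1 hAB]
    exact Nat.le_succ _
  · push Not at hall
    obtain ⟨x0, hx0, hj0⟩ := hall
    unfold rk
    set SA := Submodule.span ℝ ((A.map V : AddSubgroup (EuclideanSpace ℝ (Fin n))) :
      Set (EuclideanSpace ℝ (Fin n))) with hSA
    set SB := Submodule.span ℝ ((B.map V : AddSubgroup (EuclideanSpace ℝ (Fin n))) :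
      Set (EuclideanSpace ℝ (Fin n))) with hSB
    have hle : SB ≤ SA ⊔ Submodule.span ℝ {V x0} := by
      rw [hSB, Submodule.span_le]
      rintro _ ⟨x, hx, rfl⟩
      have h1 : x0 j • x - x j • x0 ∈ A := by
        refine hA _ (B.sub_mem (B.zsmul_mem hx _) (B.zsmul_mem hx0 _)) ?_
        simp [mul_comm]
      have h2 : V (x0 j • x - x j • x0) ∈ SA :=
        Submodule.subset_span ⟨_, h1, rfl⟩
      have h3 : V (x0 j • x - x j • x0) =
          (x0 j : ℝ) • V x - (x j : ℝ) • V x0 := by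
        rw [map_sub, map_zsmul, map_zsmul,
          Int.cast_smul_eq_zsmul, Int.cast_smul_eq_zsmul]
      have h4 : (x0 j : ℝ) ≠ 0 := by exact_mod_cast hj0
      have h5 : V x = (x0 j : ℝ)⁻¹ • V (x0 j • x - x j • x0) +
          ((x0 j : ℝ)⁻¹ * (x j : ℝ)) • V x0 := by
        rw [h3, smul_sub, smul_smul, smul_smul, inv_mul_cancel₀ h4, one_smul]
        abel
      show V x ∈ _
      rw [h5]
      exact Submodule.add_mem_sup (SA.smul_mem _ h2)
        (Submodule.smul_mem _ _ (Submodule.mem_span_singleton_self _))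
    calc Module.finrank ℝ SB ≤ Module.finrank ℝ (SA ⊔ Submodule.span ℝ {V x0} : Submodule ℝ _) :=
          Submodule.finrank_mono hle
      _ ≤ Module.finrank ℝ SA + Module.finrank ℝ (Submodule.span ℝ {V x0}) :=
          Submodule.finrank_add_le_finrank_add_finrank _ _
      _ ≤ Module.finrank ℝ SA + 1 := by
          gcongr
          exact (finrank_span_le_card _).trans (by simp)

theorem exists_chainV {J : Type*} [Fintype J] {n : ℕ} (V : (J → ℤ) →+ EuclideanSpace ℝ (Fin n))
    (τ : ℕ) (L : AddSubgroup (J → ℤ)) (hint : IntOn V τ L) (d : ℕ) (hd : d ≤ rk (L.map V)) :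
    ∃ Λ : ℕ → AddSubgroup (Fin n → ℤ), (∀ j, Λ j ≤ pull V τ L) ∧ (∀ j < d, Λ j ≤ Λ (j + 1)) ∧
      (∀ j ≤ d, rk ((Λ j).map (emb (Fin n))) = j) ∧
      ∀ j ≤ d, Real.sqrt Real.pi ^ j *
          (w (L.map (embV V)) / Real.sqrt Real.pi ^ rk (L.map (embV V))) ≤
        (2 : ℝ) ^ (τ * j) * w ((Λ j).map (emb (Fin n))) := by
  classical
  have hπ : 0 < Real.sqrt Real.pi := Real.sqrt_pos.mpr Real.pi_pos
  set e := Fintype.equivFin J with he
  set C : ℕ → AddSubgroup (J → ℤ) := Chain_cut e L with hC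
  have hmono1 : ∀ i, C i ≤ C (i + 1) := fun i x hx => ⟨hx.1, fun j hj => hx.2 j (by omega)⟩
  have hmono : Monotone C := monotone_nat_of_le_succ hmono1
  have hCL : ∀ i, C i ≤ L := fun i x hx => hx.1
  have hCint : ∀ i, IntOn V τ (C i) := fun i => hint.mono (hCL i)
  have hC0 : C 0 = ⊥ := by
    rw [eq_bot_iff]
    intro x hx
    rw [AddSubgroup.mem_bot]
    funext j
    exact hx.2 j (Nat.zero_le _)
  have hCm : C (Fintype.card J) = L := by
    refine le_antisymm (hCL _) ?_
    intro x hx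
    exact ⟨hx, fun j hj => absurd (e j).2 (by omega)⟩
  have hstep : ∀ i (hi : i < Fintype.card J), ∀ x, x ∈ C (i + 1) → x (e.symm ⟨i, hi⟩) = 0 →
      x ∈ C i := by
    intro i hi x hx h0
    refine ⟨hx.1, fun j hj => ?_⟩
    rcases Nat.lt_or_ge i (e j : ℕ) with h | h
    · exact hx.2 j h
    · have h1 : e j = ⟨i, hi⟩ := Fin.ext (le_antisymm h hj)
      have h2 : j = e.symm ⟨i, hi⟩ := by rw [← h1, Equiv.symm_apply_apply]
      rw [h2]
      exact h0
  set r : ℕ → ℕ := fun i => rk ((C i).map V) with hr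
  have hr0 : r 0 = 0 := by
    simp only [hr]
    rw [hC0, AddSubgroup.map_bot]
    exact rk_bot
  have hrm : d ≤ r (Fintype.card J) := by
    simp only [hr]
    rw [hCm]
    exact hd
  have hr1 : ∀ i < Fintype.card J, r (i + 1) ≤ r i + 1 := by
    intro i hi
    exact rk_stepV V (C i) (C (i + 1)) (hmono1 i) (e.symm ⟨i, hi⟩) (hstep i hi)
  -- the normalised covolumes
  set g : ℕ → ℝ := fun i => w ((C i).map (embV V)) /
    Real.sqrt Real.pi ^ rk ((C i).map (embV V)) with hg
  have hg1 : ∀ i < Fintype.card J, g (i + 1) ≤ g i := by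
    intro i hi
    set j := e.symm ⟨i, hi⟩ with hj
    let l : EuclideanSpace ℝ (J ⊕ Fin n) →ₗ[ℝ] ℝ :=
      { toFun := fun y => y (Sum.inl j)
        map_add' := fun x y => by simp
        map_smul' := fun c x => by simp }
    have hcut : cut ((C (i + 1)).map (embV V)) (LinearMap.ker l) =
        (C i).map (embV V) := by
      ext y
      constructor
      · rintro ⟨⟨x, hx, rfl⟩, hy⟩
        have h1 : l (embV V x) = 0 := hy
        have h2 : ((x j : ℤ) : ℝ) = 0 := h1
        exact ⟨x, hstep i hi x hx (by exact_mod_cast h2), rfl⟩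
      · rintro ⟨x, hx, rfl⟩
        refine ⟨⟨x, hmono1 i hx, rfl⟩, ?_⟩
        show ((x j : ℤ) : ℝ) = 0
        have h1 : x j = 0 := hx.2 j (by rw [hj, Equiv.apply_symm_apply])
        rw [h1, Int.cast_zero]
    obtain ⟨h1, h2⟩ := w_cut (disc_embV V (C (i + 1))) l
      (fun x => by
        have h3 : |x (Sum.inl j)| ≤ ‖x‖ := by
          have := EuclideanSpace.norm_eq x
          rw [this]
          apply Real.le_sqrt_of_sq_le
          have h4 : ‖x (Sum.inl j)‖ ^ 2 ≤ ∑ i, ‖x i‖ ^ 2 :=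
            Finset.single_le_sum (f := fun i => ‖x i‖ ^ 2) (fun _ _ => sq_nonneg _)
              (Finset.mem_univ (Sum.inl j))
          rwa [Real.norm_eq_abs] at h4
        exact h3)
      (by
        rintro _ ⟨x, hx, rfl⟩
        exact ⟨x j, rfl⟩)
    rw [hcut] at h1 h2
    have h5 : rk ((C i).map (embV V)) ≤ rk ((C (i + 1)).map (embV V)) :=
      rk_mono (AddSubgroup.map_mono (hmono1 i))
    simp only [hg]
    rw [div_le_div_iff₀ (by positivity) (by positivity)]
    calc w ((C (i + 1)).map (embV V)) * Real.sqrt Real.pi ^ rk ((C i).map (embV V))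
        ≤ (w ((C i).map (embV V)) * Real.sqrt Real.pi ^
          (rk ((C (i + 1)).map (embV V)) - rk ((C i).map (embV V)))) *
          Real.sqrt Real.pi ^ rk ((C i).map (embV V)) := by
          gcongr
      _ = w ((C i).map (embV V)) *
          Real.sqrt Real.pi ^ rk ((C (i + 1)).map (embV V)) := by
          rw [mul_assoc, ← pow_add, Nat.sub_add_cancel h5]
  have hgm : ∀ i ≤ Fintype.card J, g (Fintype.card J) ≤ g i := by
    intro i hi
    induction hi using Nat.decreasingInduction with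
    | self => exact le_refl _
    | of_succ k hk ih => exact ih.trans (hg1 k hk)
  have hex : ∀ j, j ≤ d → ∃ i, j ≤ r i := fun j hj => ⟨Fintype.card J, hj.trans hrm⟩
  set idx : ℕ → ℕ := fun j => if h : j ≤ d then Nat.find (hex j h) else 0 with hidx
  have hidx1 : ∀ j (hj : j ≤ d), idx j = Nat.find (hex j hj) := by
    intro j hj
    simp only [hidx]
    rw [dif_pos hj]
  have hidxm : ∀ j, j ≤ d → idx j ≤ Fintype.card J := by
    intro j hj
    rw [hidx1 j hj]
    exact Nat.find_min' _ (hj.trans hrm)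
  have hidxr : ∀ j, j ≤ d → r (idx j) = j := by
    intro j hj
    rw [hidx1 j hj]
    refine le_antisymm ?_ (Nat.find_spec (hex j hj))
    rcases Nat.eq_zero_or_pos (Nat.find (hex j hj)) with h | h
    · rw [h, hr0]
      exact Nat.zero_le _
    · obtain ⟨i, hi⟩ : ∃ i, Nat.find (hex j hj) = i + 1 := ⟨Nat.find (hex j hj) - 1, by omega⟩
      have h1 : ¬ (j ≤ r i) := Nat.find_min (hex j hj) (by omega)
      have h2 : i < Fintype.card J := by
        have := hidxm j hj
        rw [hidx1 j hj] at this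
        omega
      have h3 := hr1 i h2
      rw [hi]
      omega
  refine ⟨fun j => pull V τ (C (idx j)), fun j => pull_mono (hCL _), ?_, ?_, ?_⟩
  · intro j hj
    refine pull_mono (hmono ?_)
    rw [hidx1 j hj.le, hidx1 (j + 1) hj]
    refine Nat.find_min' _ ?_
    exact (Nat.le_succ j).trans (Nat.find_spec (hex (j + 1) hj))
  · intro j hj
    show rk ((pull V τ (C (idx j))).map (emb (Fin n))) = j
    rw [rk_pull (hCint _)]
    exact hidxr j hj
  · intro j hj
    obtain ⟨h1, h2⟩ := w_kernelV V τ (C (idx j)) (hCint _)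
    have h3 : rk ((pull V τ (C (idx j))).map (emb (Fin n))) = j := by
      rw [rk_pull (hCint _)]
      exact hidxr j hj
    rw [h3] at h1 h2
    have h4 := hgm (idx j) (hidxm j hj)
    simp only [hg] at h4
    rw [hCm] at h4
    calc Real.sqrt Real.pi ^ j *
          (w (L.map (embV V)) / Real.sqrt Real.pi ^ rk (L.map (embV V)))
        ≤ Real.sqrt Real.pi ^ j *
          ((Real.sqrt Real.pi ^ (rk ((C (idx j)).map (embV V)) - j) *
            ((2 : ℝ) ^ (τ * j) * w ((pull V τ (C (idx j))).map (emb (Fin n))))) /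
            Real.sqrt Real.pi ^ rk ((C (idx j)).map (embV V))) := by
          refine mul_le_mul_of_nonneg_left (h4.trans ?_) (by positivity)
          exact div_le_div_of_nonneg_right h2 (by positivity)
      _ = (2 : ℝ) ^ (τ * j) * w ((pull V τ (C (idx j))).map (emb (Fin n))) := by
          have h5 : Real.sqrt Real.pi ^ rk ((C (idx j)).map (embV V)) =
              Real.sqrt Real.pi ^ j *
              Real.sqrt Real.pi ^ (rk ((C (idx j)).map (embV V)) - j) := by
            rw [← pow_add, Nat.add_sub_cancel' h1]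
          rw [h5]
          have h6 : Real.sqrt Real.pi ^ j ≠ 0 := by positivity
          have h7 : Real.sqrt Real.pi ^ (rk ((C (idx j)).map (embV V)) - j) ≠ 0 := by
            positivity
          field_simp

end Pool.Agent.Y336.PF
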