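import Pool.Agent.Y336.PF.RM
import Pool.Agent.H460R2.Claim

/-! Few short vectors, and claim*, for one value of `n`. -/

set_option autoImplicit false

namespace Pool.Agent.Y336.PF

open H460

/-- number of short vectors in a lattice all of whose sublattices have small `w` -/
theorem few_at {n κ i0 : ℕ} {ε : ℝ} (hε : 0 < ε) (hn : 1 ≤ n)
    (hRM : RMAt n (ε / 2) (κ + 1) (1 / 2)) (hi0 : 4 * (16 * (κ : ℝ) + 4) < 4 ^ i0)
    (ha : (2 : ℝ) ^ (i0 + 1) ≤ (n : ℝ) ^ (ε / 2)) :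
    ∀ (F : Type) [NormedAddCommGroup F] [InnerProductSpace ℝ F] [FiniteDimensional ℝ F]
      (M : AddSubgroup F), Disc M → rk M ≤ κ * n →
      (∀ Γ : AddSubgroup F, Γ ≤ M → w Γ * ((n : ℝ) ^ ε) ^ rk Γ ≤ 2) →
      ∀ S : Finset F, (∀ x ∈ S, x ∈ M ∧ ‖x‖ ^ 2 ≤ (16 * κ + 4) * n) →
        (S.card : ℝ) ≤ 2 ^ n := by
  classical
  intro F _ _ _ M hM hrk hw S hS
  have hnpos : (0 : ℝ) < n := by exact_mod_cast hn
  set c : ℝ := (2 : ℝ) ^ (-(i0 : ℤ)) with hc
  have hcne : c ≠ 0 := by positivity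
  obtain ⟨hMd, hMr⟩ := disc_scl hM hcne
  have hth : th (scl c M) 0 1 ≤ (2 : ℝ) ^ ((1 / 2 : ℝ) * n) := by
    refine hRM F (scl c M) hMd ?_ ?_
    · rw [hMr]
      have : (rk M : ℝ) ≤ (κ : ℝ) * n := by exact_mod_cast hrk
      nlinarith
    · intro G hG
      set Γ : AddSubgroup F := scl c⁻¹ G with hΓ
      have hΓM : Γ ≤ M := Cosets_scl_le hcne hG
      have hΓd : Disc Γ := hM.mono hΓM
      have hGeq : scl c Γ = G := Cosets_scl_cancel hcne G
      have hrkG : rk G = rk Γ := by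
        rw [← hGeq]; exact (disc_scl hΓd hcne).2
      rw [hrkG]
      by_cases hk : rk Γ = 0
      · have hbot : G = ⊥ := rk_eq_zero.1 (hrkG.trans hk)
        rw [hk, hbot, w_bot]; simp
      · have hwG : w G = (2 : ℝ) ^ (i0 * rk Γ) * w Γ := by
          rw [← hGeq, hc, w_scl hΓd]
          congr 1
          rw [← zpow_natCast]
          congr 1
          push_cast
          ring
        rw [hwG]
        have h2 : (n : ℝ) ^ ε = ((n : ℝ) ^ (ε / 2)) ^ 2 := by
          rw [← Real.rpow_natCast, ← Real.rpow_mul hnpos.le]; congr 1; push_cast; ring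
        have h3 : (n : ℝ) ^ (-(ε / 2 * (rk Γ : ℝ))) = (((n : ℝ) ^ (ε / 2)) ^ rk Γ)⁻¹ := by
          rw [Real.rpow_neg hnpos.le, Real.rpow_mul hnpos.le, Real.rpow_natCast]
        rw [h3]
        refine Cosets_num (Nat.one_le_iff_ne_zero.2 hk) ha ?_
        rw [← h2]
        exact hw Γ hΓM
  have hcard : ((S.image (fun x => c • x)).card : ℝ) ≤ Real.exp (1 * ((n : ℝ) / 4)) * th (scl c M) 0 1 := by
    refine card_le_th hMd one_pos ?_
    intro x hx
    obtain ⟨y, hy, rfl⟩ := Finset.mem_image.1 hx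
    refine ⟨Cosets_mem_scl.2 ⟨y, (hS y hy).1, rfl⟩, ?_⟩
    have h1 := (hS y hy).2
    have h2 : ‖c • y‖ ^ 2 = ‖y‖ ^ 2 / 4 ^ i0 := by
      rw [norm_smul, mul_pow, Real.norm_eq_abs, sq_abs, hc, zpow_neg, zpow_natCast, inv_pow, ← pow_mul,
        mul_comm i0 2, pow_mul]
      norm_num
      ring
    rw [h2, div_le_iff₀ (by positivity)]
    have h3 : (16 * (κ : ℝ) + 4) * n ≤ n / 4 * 4 ^ i0 := by
      nlinarith
    linarith
  have hinj : (S.image (fun x => c • x)).card = S.card :=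
    Finset.card_image_of_injective _ (smul_right_injective F hcne)
  rw [hinj] at hcard
  have he : Real.exp (1 * ((n : ℝ) / 4)) ≤ (2 : ℝ) ^ ((1 / 2 : ℝ) * n) := by
    rw [Real.rpow_def_of_pos (by norm_num)]
    refine Real.exp_le_exp.2 ?_
    have := Real.log_two_gt_d9
    nlinarith
  calc (S.card : ℝ) ≤ Real.exp (1 * ((n : ℝ) / 4)) * th (scl c M) 0 1 := hcard
    _ ≤ (2 : ℝ) ^ ((1 / 2 : ℝ) * n) * (2 : ℝ) ^ ((1 / 2 : ℝ) * n) := by
        refine mul_le_mul he hth ?_ (by positivity)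
        exact zero_le_one.trans (one_le_th hMd one_pos)
    _ = 2 ^ n := by
        rw [← Real.rpow_add (by norm_num), ← Real.rpow_natCast]; congr 1; ring


/-- claim* for one value of `n`, under explicit conditions -/
theorem claim_at {n μ κ : ℕ} (hκ : 1 ≤ κ) (hn2 : 2 ^ (64 * (κ + 1)) ≤ n) (hn3 : μ + 4 ≤ n)
    (hfew : ∀ (F : Type) [NormedAddCommGroup F] [InnerProductSpace ℝ F] [FiniteDimensional ℝ F]
      (M : AddSubgroup F), Disc M → rk M ≤ κ * n →
      (∀ Γ : AddSubgroup F, Γ ≤ M → w Γ * ((n : ℝ) ^ ((1 : ℝ) / (64 * κ))) ^ rk Γ ≤ 2) →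
      ∀ S : Finset F, (∀ x ∈ S, x ∈ M ∧ ‖x‖ ^ 2 ≤ (16 * κ + 4) * n) →
        (S.card : ℝ) ≤ 2 ^ n)
    (L : AddSubgroup (Fin n → ℤ)) (hL : Good n μ L) : ClaimStar n μ κ L := by
  classical
  set ε : ℝ := 1 / (64 * κ) with hε
  have hκR : (0 : ℝ) < κ := by exact_mod_cast hκ
  have hε0 : 0 < ε := by positivity
  intro J _ hJ W hW X hX hXW hz
  obtain ⟨z, hz⟩ := hz
  have hnum := claim_num κ n hn2
  clear hn2
  have hn1 : 1 ≤ n := by omega
  have hn0 : (0 : ℝ) < n := by exact_mod_cast hn1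
  have hnR : (1 : ℝ) ≤ n := by exact_mod_cast hn1
  have hμ : μ + 4 ≤ n ^ 2 := hn3.trans (Nat.le_self_pow two_ne_zero n)
  set T : ℝ := 2 ^ (n ^ 2) with hT
  have hT0 : 0 < T := by positivity
  rcases X.eq_empty_or_nonempty with hXe | ⟨x0, hx0⟩
  · subst hXe
    simp only [Finset.card_empty, Nat.cast_zero]
    positivity
  set M : AddSubgroup (EuclideanSpace ℝ (J ⊕ Fin n)) :=
    (⊤ : AddSubgroup (J → ℤ)).map (embW W T) with hM
  have hMd : Disc M := disc_embW W T ⊤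
  have hpi : 1 ≤ Real.sqrt Real.pi := badT_sqrtpi
  have hB : ∀ Γ : AddSubgroup (EuclideanSpace ℝ (J ⊕ Fin n)), Γ ≤ M →
      w Γ ≤ Real.sqrt Real.pi ^ Fintype.card J := by
    intro Γ hΓ
    have e : (Γ.comap (embW W T)).map (embW W T) = Γ := by
      rw [AddSubgroup.map_comap_eq]
      apply inf_eq_right.2
      intro x hx
      obtain ⟨y, _, hy⟩ := hΓ hx
      exact ⟨y, hy⟩
    rw [← e]
    exact (w_embW_le W T _).trans (pow_le_pow_right₀ hpi (rk_embW W T _))
  have hs1 : 1 ≤ (n : ℝ) ^ ε := Real.one_le_rpow hnR hε0.le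
  obtain ⟨U, hUsat, hUw, hUq⟩ := exists_HN hMd _ hB hs1
  -- the sublattice of `ℤ^J`
  set Γ₁ : AddSubgroup (J → ℤ) := U.toAddSubgroup.comap (embW W T) with hΓ₁
  have hΓ₁map : Γ₁.map (embW W T) = cut M U := by
    ext v
    constructor
    · rintro ⟨y, hy, rfl⟩
      exact ⟨⟨y, AddSubgroup.mem_top y, rfl⟩, hy⟩
    · rintro ⟨⟨y, _, rfl⟩, hv⟩
      exact ⟨y, hv, rfl⟩
  have hrkcut : rk (cut M U) ≤ κ * n := by
    rw [← hΓ₁map]
    exact (rk_embW W T _).trans hJ
  have hrkM : rk M ≤ κ * n := (rk_embW W T _).trans hJ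
  have hspow : ((n : ℝ) ^ ε) ^ rk (cut M U) ≤ (n : ℝ) ^ ((n : ℝ) / 64) := by
    rw [← Real.rpow_natCast, ← Real.rpow_mul hn0.le]
    apply Real.rpow_le_rpow_of_exponent_le hnR
    have h1 : (rk (cut M U) : ℝ) ≤ κ * n := by exact_mod_cast hrkcut
    calc ε * (rk (cut M U) : ℝ) ≤ ε * (κ * n) := mul_le_mul_of_nonneg_left h1 hε0.le
      _ = (n : ℝ) / 64 := by rw [hε]; field_simp
  have hΓ₁w : 1 / 2 ≤ w (Γ₁.map (embW W (2 ^ (n ^ 2)))) * (n : ℝ) ^ ((n : ℝ) / 64) := by
    rw [← hT, hΓ₁map]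
    exact hUw.trans (mul_le_mul_of_nonneg_left hspow (w_nonneg (hMd.mono inf_le_left)))
  have hrkW : rk ((Γ₁.map W).map (emb (Fin n))) ≤ n / 2 :=
    exists_bad hL hμ hnum hJ W hW Γ₁ hΓ₁w
  -- projection
  set P : EuclideanSpace ℝ (J ⊕ Fin n) →L[ℝ] EuclideanSpace ℝ (J ⊕ Fin n) :=
    (Uᗮ).starProjection with hP
  set f : (J → ℤ) → EuclideanSpace ℝ (J ⊕ Fin n) := fun x => P (embW W T (x - x0)) with hf
  have hrkq : rk (quo M U) ≤ κ * n := by
    have := rk_quo hMd hUsat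
    omega
  have hcardS : ((X.image f).card : ℝ) ≤ 2 ^ n := by
    apply hfew _ (quo M U) (disc_quo hMd hUsat) hrkq hUq
    intro v hv
    obtain ⟨x, hx, rfl⟩ := Finset.mem_image.1 hv
    refine ⟨⟨embW W T (x - x0), ⟨x - x0, AddSubgroup.mem_top _, rfl⟩, rfl⟩, ?_⟩
    have h1 : ‖f x‖ ≤ ‖embW W T (x - x0)‖ := by
      rw [hf]
      exact Submodule.norm_starProjection_apply_le _ _
    have h2 : ‖f x‖ ^ 2 ≤ ‖embW W T (x - x0)‖ ^ 2 := pow_le_pow_left₀ (norm_nonneg _) h1 2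
    refine h2.trans ?_
    rw [embW_norm]
    have h3 : ∑ j, (((x - x0) j : ℤ) : ℝ) ^ 2 ≤ 16 * (κ * n) := by
      calc ∑ j, (((x - x0) j : ℤ) : ℝ) ^ 2 ≤ ∑ _j : J, (16 : ℝ) := by
            apply Finset.sum_le_sum
            intro j _
            have ha := hX x hx j
            have hb := hX x0 hx0 j
            rw [abs_le] at ha hb
            have h5 : |((x - x0) j : ℤ)| ≤ 4 := by
              rw [Pi.sub_apply, abs_le]
              constructor <;> linarith [ha.1, ha.2, hb.1, hb.2]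
            have h6 : |(((x - x0) j : ℤ) : ℝ)| ≤ 4 := by exact_mod_cast h5
            rw [← sq_abs]
            nlinarith [abs_nonneg (((x - x0) j : ℤ) : ℝ)]
        _ = 16 * (Fintype.card J : ℝ) := by
            rw [Finset.sum_const, Finset.card_univ, nsmul_eq_mul, mul_comm]
        _ ≤ 16 * (κ * n) := by
            have : (Fintype.card J : ℝ) ≤ κ * n := by exact_mod_cast hJ
            linarith
    have h4 : ∑ i, ((W (x - x0) i : ℝ) / T) ^ 2 ≤ 4 * n := by
      calc ∑ i, ((W (x - x0) i : ℝ) / T) ^ 2 ≤ ∑ _i : Fin n, (4 : ℝ) := by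
            apply Finset.sum_le_sum
            intro i _
            have ha := hz x hx i
            have hb := hz x0 hx0 i
            rw [abs_le] at ha hb
            have h5 : |W (x - x0) i| ≤ 2 * 2 ^ (n ^ 2) := by
              rw [map_sub, Pi.sub_apply, abs_le]
              constructor <;> linarith [ha.1, ha.2, hb.1, hb.2]
            have h6 : |(W (x - x0) i : ℝ)| ≤ 2 * T := by
              rw [hT]; exact_mod_cast h5
            rw [div_pow, div_le_iff₀ (by positivity), ← sq_abs]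
            nlinarith [abs_nonneg (W (x - x0) i : ℝ)]
        _ = 4 * n := by
            rw [Finset.sum_const, Finset.card_univ, Fintype.card_fin, nsmul_eq_mul, mul_comm]
    calc _ ≤ 16 * ((κ : ℝ) * n) + 4 * n := add_le_add h3 h4
      _ = (16 * κ + 4) * n := by ring
  -- fibres
  set V : Submodule ℝ (EuclideanSpace ℝ (Fin n)) :=
    Submodule.span ℝ (((Γ₁.map W).map (emb (Fin n)) : AddSubgroup (EuclideanSpace ℝ (Fin n))) :
      Set (EuclideanSpace ℝ (Fin n))) with hV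
  have hfib : ∀ v ∈ X.image f, (X.filter (fun x => f x = v)).card ≤
      2 ^ (6 * n + 1 + (μ + 4) * (n / 2)) := by
    intro v _
    have hinj : Set.InjOn W ((X.filter (fun x => f x = v)) : Set (J → ℤ)) := by
      intro a ha b hb hab
      simp only [Finset.coe_filter, Set.mem_ofPred_eq] at ha hb
      exact hXW ha.1 hb.1 hab
    rw [← Finset.card_image_of_injOn hinj]
    have hdiff : ∀ a ∈ X.filter (fun x => f x = v), ∀ b ∈ X.filter (fun x => f x = v),
        a - b ∈ Γ₁ := by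
      intro a ha b hb
      have ha2 := (Finset.mem_filter.1 ha).2
      have hb2 := (Finset.mem_filter.1 hb).2
      have h1 : P (embW W T (a - b)) = 0 := by
        have e : a - b = (a - x0) - (b - x0) := by abel
        rw [e, map_sub, map_sub]
        change f a - f b = 0
        rw [ha2, hb2, sub_self]
      change embW W T (a - b) ∈ U
      have h2 := (Submodule.starProjection_apply_eq_zero_iff (K := Uᗮ)).1 h1
      rwa [Submodule.orthogonal_orthogonal] at h2
    have hb := pts_bound hμ hL V (d := n / 2) hrkW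
      ((X.filter (fun x => f x = v)).image W) (by
        intro p hp q hq
        obtain ⟨a, ha, rfl⟩ := Finset.mem_image.1 hp
        obtain ⟨b, hb, rfl⟩ := Finset.mem_image.1 hq
        rw [← map_sub]
        refine ⟨hW _, Submodule.subset_span ?_⟩
        exact ⟨W (a - b), ⟨a - b, hdiff a ha b hb, rfl⟩, rfl⟩) z (by
        intro p hp i
        obtain ⟨a, ha, rfl⟩ := Finset.mem_image.1 hp
        exact hz a (Finset.mem_filter.1 ha).1 i)
    exact_mod_cast hb
  have hcard := Finset.card_le_mul_card_image X _ hfib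
  have hcardR : (X.card : ℝ) ≤ (2 : ℝ) ^ (6 * n + 1 + (μ + 4) * (n / 2)) * 2 ^ n := by
    calc (X.card : ℝ) ≤ ((2 ^ (6 * n + 1 + (μ + 4) * (n / 2)) * (X.image f).card : ℕ) : ℝ) := by
          exact_mod_cast hcard
      _ = (2 : ℝ) ^ (6 * n + 1 + (μ + 4) * (n / 2)) * ((X.image f).card : ℝ) := by push_cast; ring
      _ ≤ _ := mul_le_mul_of_nonneg_left hcardS (by positivity)
  refine hcardR.trans ?_
  rw [← pow_add, ← Real.rpow_natCast]
  apply Real.rpow_le_rpow_of_exponent_le (by norm_num)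
  push_cast
  have h7 : ((n / 2 : ℕ) : ℝ) ≤ (n : ℝ) / 2 := by
    have := @Nat.cast_div_le ℝ _ _ _ n 2
    simpa using this
  have h8 : ((μ : ℝ) + 4) * ((n / 2 : ℕ) : ℝ) ≤ ((μ : ℝ) + 4) * ((n : ℝ) / 2) :=
    mul_le_mul_of_nonneg_left h7 (by positivity)
  nlinarith


end Pool.Agent.Y336.PF
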