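import Pool.Agent.Y336.PF.BadV
import Pool.Agent.Y336.PF.Few

/-! claim* for generators in an arbitrary group, for one value of `n`. -/

set_option autoImplicit false

namespace Pool.Agent.Y336.PF

open H460

/-- conclusion of claim*, general form: `Φ` describes how the generators project to `ℝ^n` -/
def ClaimGen (n μ κ : ℕ) (L : AddSubgroup (Fin n → ℤ)) : Prop :=
  ∀ (J : Type) [Fintype J], Fintype.card J ≤ κ * n →
    ∀ (Φ : (J → ℤ) →+ EuclideanSpace ℝ (Fin n)) (D : Finset (Fin n → ℤ))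
      (x : (Fin n → ℤ) → (J → ℤ)),
      (∀ s ∈ D, ∀ j, |x s j| ≤ 2) → (∀ s ∈ D, ∀ i, |s i| ≤ 2 ^ (n ^ 2)) → (∀ s ∈ D, s ∈ L) →
      (∀ s ∈ D, ∀ s' ∈ D, Φ (x s - x s') =
        (2 : ℝ) ^ (-((n ^ 2 : ℕ) : ℤ)) • emb (Fin n) (s - s')) →
      (D.card : ℝ) ≤ (2 : ℝ) ^ ((12 + (μ : ℝ) / 2) * n)

theorem claim_gen {n μ κ : ℕ} (hκ : 1 ≤ κ) (hn2 : 2 ^ (64 * (κ + 1)) ≤ n) (hn3 : μ + 4 ≤ n)
    (hfew : ∀ (F : Type) [NormedAddCommGroup F] [InnerProductSpace ℝ F] [FiniteDimensional ℝ F]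
      (M : AddSubgroup F), Disc M → rk M ≤ κ * n →
      (∀ Γ : AddSubgroup F, Γ ≤ M → w Γ * ((n : ℝ) ^ ((1 : ℝ) / (64 * κ))) ^ rk Γ ≤ 2) →
      ∀ S : Finset F, (∀ x ∈ S, x ∈ M ∧ ‖x‖ ^ 2 ≤ (16 * κ + 4) * n) →
        (S.card : ℝ) ≤ 2 ^ n)
    (L : AddSubgroup (Fin n → ℤ)) (hL : Good n μ L) : ClaimGen n μ κ L := by
  classical
  set ε : ℝ := 1 / (64 * κ) with hε
  have hκR : (0 : ℝ) < κ := by exact_mod_cast hκ
  have hε0 : 0 < ε := by positivity
  intro J _ hJ Φ D x hx hbox hDL hΦ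
  have hnum := claim_num κ n hn2
  clear hn2
  have hn1 : 1 ≤ n := by omega
  have hn0 : (0 : ℝ) < n := by exact_mod_cast hn1
  have hnR : (1 : ℝ) ≤ n := by exact_mod_cast hn1
  have hμ : μ + 4 ≤ n ^ 2 := hn3.trans (Nat.le_self_pow two_ne_zero n)
  set c : ℝ := (2 : ℝ) ^ (-((n ^ 2 : ℕ) : ℤ)) with hc
  have hc0 : 0 < c := by positivity
  have hcT : c * 2 ^ (n ^ 2) = 1 := by
    rw [hc, zpow_neg, zpow_natCast]
    exact inv_mul_cancel₀ (by positivity)
  rcases D.eq_empty_or_nonempty with hXe | ⟨s0, hs0⟩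
  · subst hXe
    simp only [Finset.card_empty, Nat.cast_zero]
    positivity
  -- the group of the combinations whose value is a point of `L`
  set Λ₀ : AddSubgroup (J → ℤ) := (L.map (((LinearMap.lsmul ℝ (EuclideanSpace ℝ (Fin n))
    c).toAddMonoidHom).comp (emb (Fin n)))).comap Φ with hΛ₀
  have hint0 : IntoL Φ L Λ₀ := by
    intro y hy
    rw [hΛ₀, AddSubgroup.mem_comap, AddSubgroup.mem_map] at hy
    obtain ⟨t, ht, hty⟩ := hy
    exact ⟨t, ht, hty.symm⟩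
  have hmem0 : ∀ s ∈ D, ∀ s' ∈ D, x s - x s' ∈ Λ₀ := by
    intro s hs s' hs'
    rw [hΛ₀, AddSubgroup.mem_comap, AddSubgroup.mem_map]
    exact ⟨s - s', L.sub_mem (hDL s hs) (hDL s' hs'), (hΦ s hs s' hs').symm⟩
  set M : AddSubgroup (EuclideanSpace ℝ (J ⊕ Fin n)) := Λ₀.map (embV Φ) with hM
  have hMd : Disc M := disc_embV Φ Λ₀
  have hpi : 1 ≤ Real.sqrt Real.pi := badT_sqrtpi
  have hB : ∀ Γ : AddSubgroup (EuclideanSpace ℝ (J ⊕ Fin n)), Γ ≤ M →
      w Γ ≤ Real.sqrt Real.pi ^ Fintype.card J := by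
    intro Γ hΓ
    have e : (Γ.comap (embV Φ)).map (embV Φ) = Γ := by
      rw [AddSubgroup.map_comap_eq]
      apply inf_eq_right.2
      intro y hy
      obtain ⟨t, _, ht⟩ := hΓ hy
      exact ⟨t, ht⟩
    rw [← e]
    exact (w_embV_le Φ _).trans (pow_le_pow_right₀ hpi (rk_embV Φ _))
  have hs1 : 1 ≤ (n : ℝ) ^ ε := Real.one_le_rpow hnR hε0.le
  obtain ⟨U, hUsat, hUw, hUq⟩ := exists_HN hMd _ hB hs1
  -- the sublattice of `ℤ^J`
  set Γ₁ : AddSubgroup (J → ℤ) := Λ₀ ⊓ U.toAddSubgroup.comap (embV Φ) with hΓ₁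
  have hΓ₁map : Γ₁.map (embV Φ) = cut M U := by
    ext v
    constructor
    · rintro ⟨y, hy, rfl⟩
      exact ⟨⟨y, hy.1, rfl⟩, hy.2⟩
    · rintro ⟨⟨y, hy, rfl⟩, hv⟩
      exact ⟨y, ⟨hy, hv⟩, rfl⟩
  have hrkcut : rk (cut M U) ≤ κ * n := by
    rw [← hΓ₁map]
    exact (rk_embV Φ _).trans hJ
  have hrkM : rk M ≤ κ * n := (rk_embV Φ _).trans hJ
  have hspow : ((n : ℝ) ^ ε) ^ rk (cut M U) ≤ (n : ℝ) ^ ((n : ℝ) / 64) := by
    rw [← Real.rpow_natCast, ← Real.rpow_mul hn0.le]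
    apply Real.rpow_le_rpow_of_exponent_le hnR
    have h1 : (rk (cut M U) : ℝ) ≤ κ * n := by exact_mod_cast hrkcut
    calc ε * (rk (cut M U) : ℝ) ≤ ε * (κ * n) := mul_le_mul_of_nonneg_left h1 hε0.le
      _ = (n : ℝ) / 64 := by rw [hε]; field_simp
  have hΓ₁w : 1 / 2 ≤ w (Γ₁.map (embV Φ)) * (n : ℝ) ^ ((n : ℝ) / 64) := by
    rw [hΓ₁map]
    exact hUw.trans (mul_le_mul_of_nonneg_left hspow (w_nonneg (hMd.mono inf_le_left)))
  have hint1 : IntoL Φ L Γ₁ := hint0.mono inf_le_left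
  have hrkW : rk (Γ₁.map Φ) ≤ n / 2 := exists_badV hL hμ hnum hJ Φ Γ₁ hint1 hΓ₁w
  -- projection
  set P : EuclideanSpace ℝ (J ⊕ Fin n) →L[ℝ] EuclideanSpace ℝ (J ⊕ Fin n) :=
    (Uᗮ).starProjection with hP
  set f : (Fin n → ℤ) → EuclideanSpace ℝ (J ⊕ Fin n) := fun s => P (embV Φ (x s - x s0)) with hf
  have hrkq : rk (quo M U) ≤ κ * n := by
    have := rk_quo hMd hUsat
    omega
  have hcardS : ((D.image f).card : ℝ) ≤ 2 ^ n := by
    apply hfew _ (quo M U) (disc_quo hMd hUsat) hrkq hUq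
    intro v hv
    obtain ⟨s, hs, rfl⟩ := Finset.mem_image.1 hv
    refine ⟨⟨embV Φ (x s - x s0), ⟨x s - x s0, hmem0 s hs s0 hs0, rfl⟩, rfl⟩, ?_⟩
    have h1 : ‖f s‖ ≤ ‖embV Φ (x s - x s0)‖ := by
      rw [hf]
      exact Submodule.norm_starProjection_apply_le _ _
    have h2 : ‖f s‖ ^ 2 ≤ ‖embV Φ (x s - x s0)‖ ^ 2 := pow_le_pow_left₀ (norm_nonneg _) h1 2
    refine h2.trans ?_
    rw [embV_norm]
    have h3 : ∑ j, (((x s - x s0) j : ℤ) : ℝ) ^ 2 ≤ 16 * (κ * n) := by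
      calc ∑ j, (((x s - x s0) j : ℤ) : ℝ) ^ 2 ≤ ∑ _j : J, (16 : ℝ) := by
            apply Finset.sum_le_sum
            intro j _
            have ha := hx s hs j
            have hb := hx s0 hs0 j
            rw [abs_le] at ha hb
            have h5 : |((x s - x s0) j : ℤ)| ≤ 4 := by
              rw [Pi.sub_apply, abs_le]
              constructor <;> linarith [ha.1, ha.2, hb.1, hb.2]
            have h6 : |(((x s - x s0) j : ℤ) : ℝ)| ≤ 4 := by exact_mod_cast h5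
            rw [← sq_abs]
            nlinarith [abs_nonneg (((x s - x s0) j : ℤ) : ℝ)]
        _ = 16 * (Fintype.card J : ℝ) := by
            rw [Finset.sum_const, Finset.card_univ, nsmul_eq_mul, mul_comm]
        _ ≤ 16 * (κ * n) := by
            have : (Fintype.card J : ℝ) ≤ κ * n := by exact_mod_cast hJ
            linarith
    have h4 : ‖Φ (x s - x s0)‖ ^ 2 ≤ 4 * n := by
      rw [hΦ s hs s0 hs0, norm_smul, mul_pow, Real.norm_eq_abs, sq_abs, EuclideanSpace.norm_sq_eq]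
      have h5 : ∀ i, ‖(emb (Fin n) (s - s0)).ofLp i‖ ^ 2 ≤ (2 * 2 ^ (n ^ 2)) ^ 2 := by
        intro i
        have e1 : (emb (Fin n) (s - s0)).ofLp i = ((s i - s0 i : ℤ) : ℝ) := by
          simp [emb]
        rw [e1, Real.norm_eq_abs]
        refine pow_le_pow_left₀ (abs_nonneg _) ?_ 2
        have ha := hbox s hs i
        have hb := hbox s0 hs0 i
        have h6 : |s i - s0 i| ≤ 2 * 2 ^ (n ^ 2) := (abs_sub _ _).trans (by linarith)
        have h8 : ((|s i - s0 i| : ℤ) : ℝ) ≤ ((2 * 2 ^ (n ^ 2) : ℤ) : ℝ) := by exact_mod_cast h6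
        rw [Int.cast_abs] at h8
        refine h8.trans (le_of_eq ?_)
        push_cast; ring
      calc c ^ 2 * ∑ i, ‖(emb (Fin n) (s - s0)).ofLp i‖ ^ 2
          ≤ c ^ 2 * ∑ _i : Fin n, ((2 : ℝ) * 2 ^ (n ^ 2)) ^ 2 :=
            mul_le_mul_of_nonneg_left (Finset.sum_le_sum fun i _ => h5 i) (by positivity)
        _ = 4 * n * (c * 2 ^ (n ^ 2)) ^ 2 := by
            simp only [Finset.sum_const, Finset.card_univ, Fintype.card_fin, nsmul_eq_mul]
            ring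
        _ = 4 * n := by rw [hcT]; ring
    calc _ ≤ 16 * ((κ : ℝ) * n) + 4 * n := add_le_add h3 h4
      _ = (16 * κ + 4) * n := by ring
  -- fibres
  set V : Submodule ℝ (EuclideanSpace ℝ (Fin n)) :=
    Submodule.span ℝ ((Γ₁.map Φ : AddSubgroup (EuclideanSpace ℝ (Fin n))) :
      Set (EuclideanSpace ℝ (Fin n))) with hV
  have hfib : ∀ v ∈ D.image f, (D.filter (fun s => f s = v)).card ≤
      2 ^ (6 * n + 1 + (μ + 4) * (n / 2)) := by
    intro v _
    have hdiff : ∀ a ∈ D.filter (fun s => f s = v), ∀ b ∈ D.filter (fun s => f s = v),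
        x a - x b ∈ Γ₁ := by
      intro a ha b hb
      have ha2 := (Finset.mem_filter.1 ha).2
      have hb2 := (Finset.mem_filter.1 hb).2
      have h1 : P (embV Φ (x a - x b)) = 0 := by
        have e : x a - x b = (x a - x s0) - (x b - x s0) := by abel
        rw [e, map_sub, map_sub]
        change f a - f b = 0
        rw [ha2, hb2, sub_self]
      refine ⟨hmem0 a (Finset.mem_filter.1 ha).1 b (Finset.mem_filter.1 hb).1, ?_⟩
      change embV Φ (x a - x b) ∈ U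
      have h2 := (Submodule.starProjection_apply_eq_zero_iff (K := Uᗮ)).1 h1
      rwa [Submodule.orthogonal_orthogonal] at h2
    have hb := pts_bound hμ hL V (d := n / 2) hrkW
      (D.filter (fun s => f s = v)) (by
        intro p hp q hq
        have hp1 := (Finset.mem_filter.1 hp).1
        have hq1 := (Finset.mem_filter.1 hq).1
        refine ⟨L.sub_mem (hDL p hp1) (hDL q hq1), ?_⟩
        have h1 : Φ (x p - x q) ∈ V := Submodule.subset_span ⟨_, hdiff p hp q hq, rfl⟩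
        rw [hΦ p hp1 q hq1] at h1
        have h2 := V.smul_mem c⁻¹ h1
        rwa [smul_smul, inv_mul_cancel₀ hc0.ne', one_smul] at h2) 0 (by
        intro p hp i
        have := hbox p (Finset.mem_filter.1 hp).1 i
        simpa using this)
    exact_mod_cast hb
  have hcard := Finset.card_le_mul_card_image D _ hfib
  have hcardR : (D.card : ℝ) ≤ (2 : ℝ) ^ (6 * n + 1 + (μ + 4) * (n / 2)) * 2 ^ n := by
    calc (D.card : ℝ) ≤ ((2 ^ (6 * n + 1 + (μ + 4) * (n / 2)) * (D.image f).card : ℕ) : ℝ) := by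
          exact_mod_cast hcard
      _ = (2 : ℝ) ^ (6 * n + 1 + (μ + 4) * (n / 2)) * ((D.image f).card : ℝ) := by push_cast; ring
      _ ≤ _ := mul_le_mul_of_nonneg_left hcardS (by positivity)
  refine hcardR.trans ?_
  rw [← pow_add, ← Real.rpow_natCast]
  apply Real.rpow_le_rpow_of_exponent_le (by norm_num)
  push_cast
  have h7 : ((n / 2 : ℕ) : ℝ) ≤ (n : ℝ) / 2 := by
    have := @Nat.cast_div_le ℝ _ _ _ n 2
    simpa using this
  have h8 : ((μ : ℝ) + 4) * ((n / 2 : ℕ) : ℝ) ≤ ((μ : ℝ) + 4) * ((n : ℝ) / 2) :=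
    mul_le_mul_of_nonneg_left h7 (by positivity)
  nlinarith

end Pool.Agent.Y336.PF
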