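import Pool.Agent.H460R2.Chain

/-! The lattice `{(x, V x)}` for a homomorphism `V` from `ℤ^J` to a Euclidean space. -/

set_option autoImplicit false

namespace Pool.Agent.Y336.PF

open H460

/-- `x ↦ (x, V x)` -/
noncomputable def embV {J : Type*} [Fintype J] {n : ℕ}
    (V : (J → ℤ) →+ EuclideanSpace ℝ (Fin n)) :
    (J → ℤ) →+ EuclideanSpace ℝ (J ⊕ Fin n) where
  toFun x := WithLp.toLp 2 (Sum.elim (fun j => (x j : ℝ)) (fun i => V x i))
  map_zero' := by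
    ext i
    rcases i with i | i <;> simp
  map_add' := by
    intro x y
    ext i
    rcases i with i | i
    · simp
    · simp

theorem embV_injective {J : Type*} [Fintype J] {n : ℕ}
    (V : (J → ℤ) →+ EuclideanSpace ℝ (Fin n)) : Function.Injective (embV V) := by
  intro x y hxy
  ext i
  have : (embV V x) (Sum.inl i) = (embV V y) (Sum.inl i) := by rw [hxy]
  have h2 : ((x i : ℤ) : ℝ) = ((y i : ℤ) : ℝ) := this
  exact_mod_cast h2

theorem embV_norm {J : Type*} [Fintype J] {n : ℕ}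
    (V : (J → ℤ) →+ EuclideanSpace ℝ (Fin n)) (x : J → ℤ) :
    ‖embV V x‖ ^ 2 = ∑ j, (x j : ℝ) ^ 2 + ‖V x‖ ^ 2 := by
  rw [EuclideanSpace.norm_eq, Real.sq_sqrt (Finset.sum_nonneg (fun _ _ => sq_nonneg _)),
    Fintype.sum_sum_type]
  congr 1
  · refine Finset.sum_congr rfl (fun j _ => ?_)
    rw [Real.norm_eq_abs, sq_abs]
    rfl
  · rw [EuclideanSpace.norm_eq, Real.sq_sqrt (Finset.sum_nonneg (fun _ _ => sq_nonneg _))]
    rfl

theorem disc_embV {J : Type*} [Fintype J] {n : ℕ}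
    (V : (J → ℤ) →+ EuclideanSpace ℝ (Fin n))
    (L : AddSubgroup (J → ℤ)) : Disc (L.map (embV V)) := by
  intro R
  refine ((embL_finite_box (ι := J) R).image (embV V)).subset ?_
  rintro v ⟨hv, hR⟩
  obtain ⟨x, _, rfl⟩ := AddSubgroup.mem_map.mp hv
  refine ⟨x, ?_, rfl⟩
  intro i
  have := embL_coord_le (embV V x) (Sum.inl i)
  exact this.trans hR

theorem embV_eq_sum {J : Type*} [Fintype J] {n : ℕ}
    (V : (J → ℤ) →+ EuclideanSpace ℝ (Fin n)) (x : J → ℤ) :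
    embV V x = (open Classical in ∑ j, (x j : ℝ) • embV V (Pi.single j (1 : ℤ))) := by
  classical
  have hx : x = ∑ j, (x j) • (Pi.single j (1 : ℤ) : J → ℤ) := by
    ext i
    simp [Finset.sum_apply, Pi.single_apply]
  conv_lhs => rw [hx]
  rw [map_sum]
  refine Finset.sum_congr rfl (fun j _ => ?_)
  rw [map_zsmul]
  exact (Int.cast_smul_eq_zsmul ℝ (x j) _).symm

theorem rk_embV {J : Type*} [Fintype J] {n : ℕ}
    (V : (J → ℤ) →+ EuclideanSpace ℝ (Fin n))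
    (L : AddSubgroup (J → ℤ)) : rk (L.map (embV V)) ≤ Fintype.card J := by
  classical
  have hle : Submodule.span ℝ ((L.map (embV V) : AddSubgroup _) : Set (EuclideanSpace ℝ (J ⊕ Fin n)))
      ≤ Submodule.span ℝ (Set.range (fun j : J => embV V (Pi.single j (1 : ℤ)))) := by
    rw [Submodule.span_le]
    rintro v hv
    obtain ⟨x, _, rfl⟩ := AddSubgroup.mem_map.mp hv
    rw [embV_eq_sum]
    refine Submodule.sum_mem _ (fun j _ => Submodule.smul_mem _ _ ?_)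
    exact Submodule.subset_span (R := ℝ)
      (Set.mem_range_self (f := fun j : J => embV V (Pi.single j (1 : ℤ))) j)
  unfold rk
  refine (Submodule.finrank_mono hle).trans ?_
  exact finrank_range_le_card _

theorem w_embV_le {J : Type*} [Fintype J] {n : ℕ}
    (V : (J → ℤ) →+ EuclideanSpace ℝ (Fin n)) (L : AddSubgroup (J → ℤ)) :
    w (L.map (embV V)) ≤ Real.sqrt Real.pi ^ rk (L.map (embV V)) := by
  refine w_int (disc_embV V L) (ι := J) (fun j => embL_coord (Sum.inl j)) ?_ ?_ ?_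
  · intro i x
    exact embL_coord_le x (Sum.inl i)
  · rintro i v hv
    obtain ⟨x, _, rfl⟩ := AddSubgroup.mem_map.mp hv
    exact ⟨x i, rfl⟩
  · rintro v hv h0
    obtain ⟨x, _, rfl⟩ := AddSubgroup.mem_map.mp hv
    have hx : x = 0 := by
      ext i
      have h1 : ((x i : ℤ) : ℝ) = 0 := h0 i
      exact_mod_cast h1
    rw [hx, map_zero]

/-- The values of `V` on `Γ` are the points `2 ^ (-τ) y`, `y ∈ pull V τ Γ`. -/
noncomputable def pull {J : Type*} {n : ℕ} (V : (J → ℤ) →+ EuclideanSpace ℝ (Fin n)) (τ : ℕ)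
    (Γ : AddSubgroup (J → ℤ)) : AddSubgroup (Fin n → ℤ) :=
  (Γ.map V).comap (((LinearMap.lsmul ℝ (EuclideanSpace ℝ (Fin n))
    ((2 : ℝ) ^ (-(τ : ℤ)))).toAddMonoidHom).comp (emb (Fin n)))

theorem mem_pull {J : Type*} {n : ℕ} {V : (J → ℤ) →+ EuclideanSpace ℝ (Fin n)} {τ : ℕ}
    {Γ : AddSubgroup (J → ℤ)} {y : Fin n → ℤ} :
    y ∈ pull V τ Γ ↔ ∃ x ∈ Γ, V x = (2 : ℝ) ^ (-(τ : ℤ)) • emb (Fin n) y := by
  unfold pull
  rw [AddSubgroup.mem_comap, AddSubgroup.mem_map]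
  rfl

/-- `V` has integral values (in the scale `2 ^ (-τ)`) on `Γ` -/
def IntOn {J : Type*} {n : ℕ} (V : (J → ℤ) →+ EuclideanSpace ℝ (Fin n)) (τ : ℕ)
    (Γ : AddSubgroup (J → ℤ)) : Prop :=
  ∀ x ∈ Γ, ∃ y : Fin n → ℤ, V x = (2 : ℝ) ^ (-(τ : ℤ)) • emb (Fin n) y

theorem IntOn.mono {J : Type*} {n : ℕ} {V : (J → ℤ) →+ EuclideanSpace ℝ (Fin n)} {τ : ℕ}
    {Γ Γ' : AddSubgroup (J → ℤ)} (h : IntOn V τ Γ) (hle : Γ' ≤ Γ) : IntOn V τ Γ' :=
  fun x hx => h x (hle hx)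

theorem pull_mono {J : Type*} {n : ℕ} {V : (J → ℤ) →+ EuclideanSpace ℝ (Fin n)} {τ : ℕ}
    {Γ Γ' : AddSubgroup (J → ℤ)} (hle : Γ' ≤ Γ) : pull V τ Γ' ≤ pull V τ Γ := by
  intro y hy
  obtain ⟨x, hx, hxy⟩ := mem_pull.1 hy
  exact mem_pull.2 ⟨x, hle hx, hxy⟩

theorem map_eq_scl {J : Type*} {n : ℕ} {V : (J → ℤ) →+ EuclideanSpace ℝ (Fin n)} {τ : ℕ}
    {Γ : AddSubgroup (J → ℤ)} (h : IntOn V τ Γ) :
    Γ.map V = scl ((2 : ℝ) ^ (-(τ : ℤ))) ((pull V τ Γ).map (emb (Fin n))) := by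
  ext z
  constructor
  · rintro ⟨x, hx, rfl⟩
    obtain ⟨y, hy⟩ := h x hx
    refine ⟨emb (Fin n) y, ⟨y, mem_pull.2 ⟨x, hx, hy⟩, rfl⟩, ?_⟩
    exact hy.symm
  · rintro ⟨_, ⟨y, hy, rfl⟩, rfl⟩
    obtain ⟨x, hx, hxy⟩ := mem_pull.1 hy
    exact ⟨x, hx, hxy⟩

end Pool.Agent.Y336.PF
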