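import Pool.Agent.H460R2.RMc

/-! Parameters of the reverse Minkowski theorem, with explicit conditions. -/

set_option autoImplicit false

namespace Pool.Agent.Y336.PF

open Filter Topology H460

/-- The parameters of the heat argument exist for `n, ε, κ, b`. -/
def Par (ε κ b C0 : ℝ) (n : ℕ) : Prop := 2 ≤ n ∧ ∃ jj w J : ℕ,
      1 ≤ w ∧ 4 * w + 2 ≤ 2 * jj ∧ κ * n * n ^ 2 ≤ 2 ^ jj ∧
      1 + 2 * Real.logb 2 n ≤ (jj : ℝ) + 1 ∧
      ((4 * w + 1 : ℝ) / 2 + ε / 20 * jj + 2 < ε * Real.logb 2 n) ∧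
      (2 : ℝ) ^ (4 * w + 1) ≤ n ∧
      κ * n + 1 ≤ (n : ℝ) ^ 3 / 2 ∧
      1 ≤ b * n / 4 ∧
      (1 / 2 : ℝ) ^ J * (((jj : ℝ) + 1) * (κ * n)) ≤ b * n / 4 ∧
      (2 + J * (((jj : ℝ) + 1) / (ε / 20) * 1)) *
        (1 + (2 * C0 * ((jj : ℝ) + 1) / (ε / 20)) * J / w ^ 2) ≤ b * n / 4 ∧
      ((2 * C0 * ((jj : ℝ) + 1) / (ε / 20)) * J / w ^ 2) ^ 2 *
        (κ * n * (((4 * w + 1 : ℝ) + Real.logb 2 (κ * n)) / 2 + 4) + 1) ≤ b * n / 4

/-- choice of the parameters -/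
theorem par_of {ε κ b C0 : ℝ} (hε : 0 < ε) (hε1 : ε ≤ 1) (hκ : 1 ≤ κ) (hb : 0 < b)
    (hC0 : 1 ≤ C0) {n : ℕ} (hn2 : 2 ≤ n) (hLK : Real.logb 2 κ + 2 ≤ Real.logb 2 (n : ℝ))
    (hL64 : 64 / ε ≤ Real.logb 2 (n : ℝ)) (hn4 : 4 * κ ≤ (n : ℝ)) (hnb : 4 / b ≤ (n : ℝ))
    (hJpow : 16 * κ / b * ((⌊(Real.logb 2 (n : ℝ)) ^ (1 / 8 : ℝ)⌋₊ : ℝ) + 1) ^ 8 ≤
      2 ^ ⌊(Real.logb 2 (n : ℝ)) ^ (1 / 8 : ℝ)⌋₊)
    (hLsq : 82 / ε * (1 + 40960 * C0 / ε ^ 3) * (Real.logb 2 (n : ℝ)) ^ 2 ≤ b * n / 4)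
    (hJbig : 12 * κ * (40960 * C0 / ε ^ 3) ^ 2 / b ≤
      ((⌊(Real.logb 2 (n : ℝ)) ^ (1 / 8 : ℝ)⌋₊ : ℕ) : ℝ))
    (hJ1 : 1 ≤ ⌊(Real.logb 2 (n : ℝ)) ^ (1 / 8 : ℝ)⌋₊) : Par ε κ b C0 n := by
  set c1 : ℝ := 40960 * C0 / ε ^ 3 with hc1
  have hc1pos : 0 < c1 := by rw [hc1]; positivity
  set K : ℝ := Real.logb 2 κ with hK
  have hKnn : 0 ≤ K := Real.logb_nonneg (by norm_num) hκ
  refine ⟨hn2, ?_⟩
  set L : ℝ := Real.logb 2 (n : ℝ) with hL
  set J : ℕ := ⌊L ^ (1 / 8 : ℝ)⌋₊ with hJ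
  have hn0 : (0 : ℝ) < n := by
    have : (2 : ℝ) ≤ n := by exact_mod_cast hn2
    linarith
  have hn1 : (1 : ℝ) ≤ n := by
    have : (2 : ℝ) ≤ n := by exact_mod_cast hn2
    linarith
  have hεL : 64 ≤ ε * L := by
    rw [div_le_iff₀ hε] at hL64
    linarith
  have hL64' : 64 ≤ L := by nlinarith
  have hL0 : 0 < L := by linarith
  have hnL : (n : ℝ) = (2 : ℝ) ^ L := by
    rw [hL, Real.rpow_logb (by norm_num) (by norm_num) hn0]
  have hJ8 : (J : ℝ) ^ 8 ≤ L := by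
    have h1 : (J : ℝ) ≤ L ^ (1 / 8 : ℝ) := Nat.floor_le (by positivity)
    calc (J : ℝ) ^ 8 ≤ (L ^ (1 / 8 : ℝ)) ^ 8 := by gcongr
      _ = L := by
        rw [← Real.rpow_natCast, ← Real.rpow_mul hL0.le]
        norm_num
  have hJ8' : L ≤ ((J : ℝ) + 1) ^ 8 := by
    have h1 : L ^ (1 / 8 : ℝ) ≤ (J : ℝ) + 1 := (Nat.lt_floor_add_one _).le
    calc L = (L ^ (1 / 8 : ℝ)) ^ 8 := by
          rw [← Real.rpow_natCast, ← Real.rpow_mul hL0.le]
          norm_num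
      _ ≤ _ := by gcongr
  have hJ1' : (1 : ℝ) ≤ J := by exact_mod_cast hJ1
  have hJ3 : (J : ℝ) ^ 3 ≤ L := by
    refine le_trans ?_ hJ8
    exact pow_le_pow_right₀ hJ1' (by norm_num)
  have hJL : (J : ℝ) ≤ L := by
    refine le_trans ?_ hJ8
    exact le_self_pow₀ hJ1' (by norm_num)
  -- w
  set W0 : ℕ := ⌊ε * L / 8⌋₊ with hW0
  have hW0le : (W0 : ℝ) ≤ ε * L / 8 := Nat.floor_le (by positivity)
  have hW0lt : ε * L / 8 < W0 + 1 := Nat.lt_floor_add_one _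
  have hW0ge : 2 ≤ W0 := by
    have : (1 : ℝ) < W0 := by linarith
    exact_mod_cast this
  obtain ⟨w, hw⟩ : ∃ w, W0 = w + 1 := ⟨W0 - 1, by omega⟩
  have hwR : (W0 : ℝ) = w + 1 := by rw [hw]; push_cast; ring
  have hw1 : 1 ≤ w := by omega
  have hwle : (w : ℝ) ≤ ε * L / 8 - 1 := by linarith
  have hwge : ε * L / 16 ≤ w := by linarith
  have hεLL : ε * L ≤ L := by nlinarith
  -- jj
  set jj : ℕ := ⌈3 * L + K⌉₊ with hjj
  have hjjge : 3 * L + K ≤ jj := Nat.le_ceil _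
  have hjjle : (jj : ℝ) < 3 * L + K + 1 := Nat.ceil_lt_add_one (by positivity)
  set ρ : ℝ := (jj : ℝ) + 1 with hρ
  have hρle : ρ ≤ 4 * L := by rw [hρ]; linarith
  have hρ0 : 0 < ρ := by rw [hρ]; positivity
  have hw0 : (0 : ℝ) < w := by
    have : (1 : ℝ) ≤ w := by exact_mod_cast hw1
    linarith
  -- Q
  set Q : ℝ := (2 * C0 * ρ / (ε / 20)) * J / w ^ 2 with hQ
  have hQ0 : 0 ≤ Q := by rw [hQ]; positivity
  have hQle : Q ≤ c1 * J / L := by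
    rw [hQ, div_le_div_iff₀ (by positivity) hL0]
    have h1 : 2 * C0 * ρ / (ε / 20) ≤ 160 * C0 * L / ε := by
      rw [div_le_div_iff₀ (by positivity) hε]
      have : 2 * C0 * ρ * ε ≤ 2 * C0 * (4 * L) * ε := by gcongr
      linarith
    have h2 : (ε * L / 16) ^ 2 ≤ (w : ℝ) ^ 2 := by gcongr
    calc 2 * C0 * ρ / (ε / 20) * J * L ≤ (160 * C0 * L / ε) * J * L := by gcongr
      _ = c1 * J * (ε * L / 16) ^ 2 := by
        rw [hc1]; field_simp; ring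
      _ ≤ c1 * J * (w : ℝ) ^ 2 := by gcongr
  have hQc1 : Q ≤ c1 := by
    refine hQle.trans ?_
    rw [div_le_iff₀ hL0]
    gcongr
  refine ⟨jj, w, J, hw1, ?_, ?_, by linarith, ?_, ?_, ?_, ?_, ?_, ?_, ?_⟩
  · have : (4 * w + 2 : ℝ) ≤ 2 * jj := by linarith
    exact_mod_cast this
  · have h1 : κ = (2 : ℝ) ^ K := by
      rw [hK, Real.rpow_logb (by norm_num) (by norm_num) (by linarith)]
    have h2 : κ * n * n ^ 2 = (2 : ℝ) ^ (3 * L + K) := by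
      rw [Real.rpow_add (by norm_num), ← h1, mul_comm 3 L, Real.rpow_mul (by norm_num), ← hnL]
      norm_num
      ring
    rw [h2, ← Real.rpow_natCast]
    exact Real.rpow_le_rpow_of_exponent_le (by norm_num) hjjge
  · have h1 : ε / 20 * jj ≤ ε / 20 * (4 * L) := by
      apply mul_le_mul_of_nonneg_left _ (by positivity)
      linarith
    nlinarith
  · rw [hnL, ← Real.rpow_natCast]
    apply Real.rpow_le_rpow_of_exponent_le (by norm_num)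
    push_cast
    linarith
  · nlinarith [mul_le_mul hn4 hn1 (by norm_num) hn0.le, mul_pos hn0 hn0]
  · have : 4 / b * b ≤ n * b := by
      apply mul_le_mul_of_nonneg_right hnb hb.le
    rw [div_mul_cancel₀ _ hb.ne'] at this
    linarith
  · have h1 : 16 * κ / b * L ≤ 2 ^ J := by
      refine le_trans ?_ hJpow
      gcongr
    have h2 : 16 * κ * L ≤ b * 2 ^ J := by
      have := mul_le_mul_of_nonneg_left h1 hb.le
      have e : b * (16 * κ / b * L) = 16 * κ * L := by field_simp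
      linarith
    have h3 : (1 / 2 : ℝ) ^ J * 2 ^ J = 1 := by
      rw [← mul_pow]; norm_num
    have h4 : ρ * (κ * n) ≤ b * n / 4 * 2 ^ J := by
      have : ρ * (κ * n) ≤ 4 * L * (κ * n) := by gcongr
      nlinarith [mul_le_mul_of_nonneg_right h2 hn0.le]
    calc (1 / 2 : ℝ) ^ J * (ρ * (κ * n)) ≤ (1 / 2 : ℝ) ^ J * (b * n / 4 * 2 ^ J) := by gcongr
      _ = b * n / 4 * ((1 / 2 : ℝ) ^ J * 2 ^ J) := by ring
      _ = b * n / 4 := by rw [h3, mul_one]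
  · refine le_trans ?_ hLsq
    have h1 : J * (ρ / (ε / 20) * 1) ≤ 80 * L ^ 2 / ε := by
      have : ρ / (ε / 20) ≤ 80 * L / ε := by
        rw [div_le_div_iff₀ (by positivity) hε]
        nlinarith
      calc (J : ℝ) * (ρ / (ε / 20) * 1) ≤ L * (80 * L / ε * 1) := by gcongr
        _ = 80 * L ^ 2 / ε := by ring
    have h2 : (2 : ℝ) ≤ 2 * L ^ 2 / ε := by
      rw [le_div_iff₀ hε]
      nlinarith
    have h3 : 2 + J * (ρ / (ε / 20) * 1) ≤ 82 / ε * L ^ 2 := by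
      have e : 82 / ε * L ^ 2 = 80 * L ^ 2 / ε + 2 * L ^ 2 / ε := by ring
      linarith
    calc (2 + J * (ρ / (ε / 20) * 1)) * (1 + Q) ≤ (82 / ε * L ^ 2) * (1 + c1) := by gcongr
      _ = 82 / ε * (1 + c1) * L ^ 2 := by ring
  · have hlog : Real.logb 2 (κ * n) = K + L := by
      rw [Real.logb_mul (by positivity) (by positivity)]
    rw [hlog]
    have h1 : ((4 * w + 1 : ℝ) + (K + L)) / 2 + 4 ≤ 2 * L := by linarith
    have h2 : κ * n * (((4 * w + 1 : ℝ) + (K + L)) / 2 + 4) + 1 ≤ 3 * κ * n * L := by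
      have h3 : κ * n * (((4 * w + 1 : ℝ) + (K + L)) / 2 + 4) ≤ κ * n * (2 * L) := by gcongr
      have h4 : 1 ≤ κ * n * L := by
        have := one_le_mul_of_one_le_of_one_le hκ hn1
        exact one_le_mul_of_one_le_of_one_le this (by linarith)
      linarith
    have hpos : 0 ≤ κ * n * (((4 * w + 1 : ℝ) + (K + L)) / 2 + 4) + 1 := by positivity
    calc Q ^ 2 * (κ * n * (((4 * w + 1 : ℝ) + (K + L)) / 2 + 4) + 1)
        ≤ (c1 * J / L) ^ 2 * (3 * κ * n * L) := by gcongr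
      _ = 3 * κ * c1 ^ 2 * n * (J ^ 2 / L) := by field_simp
      _ ≤ 3 * κ * c1 ^ 2 * n * (1 / J) := by
        apply mul_le_mul_of_nonneg_left _ (by positivity)
        rw [div_le_div_iff₀ hL0 (by linarith)]
        nlinarith
      _ = (12 * κ * c1 ^ 2 / b) * (b * n / 4) * (1 / J) := by field_simp; ring
      _ ≤ J * (b * n / 4) * (1 / J) := by gcongr
      _ = b * n / 4 := by field_simp


end Pool.Agent.Y336.PF
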