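import Pool.Agent.Y336.PF.Params

/-! The reverse Minkowski theorem at a single dimension `n`, under explicit conditions. -/

set_option autoImplicit false

namespace Pool.Agent.Y336.PF

open H460

/-- The `n^ε` reverse Minkowski inequality for one value of `n`. -/
def RMAt (n : ℕ) (ε κ b : ℝ) : Prop :=
  ∀ (E : Type) [NormedAddCommGroup E] [InnerProductSpace ℝ E] [FiniteDimensional ℝ E]
    (M : AddSubgroup E), Disc M → (rk M : ℝ) ≤ κ * n →
    (∀ Γ : AddSubgroup E, Γ ≤ M → w Γ ≤ (n : ℝ) ^ (-(ε * rk Γ))) →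
    th M 0 1 ≤ (2 : ℝ) ^ (b * n)

theorem rm_at (hP : PFR2Statement) : ∃ C0 : ℝ, 1 ≤ C0 ∧ ∀ (n : ℕ) (ε κ b : ℝ), 0 < ε → ε ≤ 1 →
    1 ≤ κ → 0 < b → Par ε κ b C0 n → RMAt n ε κ b := by
  obtain ⟨C0, hC0, hstep⟩ := pfr_step hP
  refine ⟨C0, hC0, ?_⟩
  intro n ε κ b hε hε1 hκ hb hpar
  intro F _ _ _ M hM hrk₀ hwM
  obtain ⟨hn2, jj, w, J, hw1, hwjj, hκjj, hρL, hae, h2n, hn3, hbn, hJ, hfin1, hfin2⟩ := hpar
  set L : ℝ := Real.logb 2 (n : ℝ) with hL
  have hn2' : (2 : ℝ) ≤ n := by exact_mod_cast hn2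
  have hn0 : (0 : ℝ) < n := by linarith
  have hn1 : (1 : ℝ) ≤ n := by linarith
  have hL1 : 1 ≤ L := by
    rw [hL]
    rw [Real.le_logb_iff_rpow_le (by norm_num) hn0]
    simpa using hn2'
  have hrk : (rk M : ℝ) ≤ κ * n := hrk₀
  -- the case of rank zero
  rcases Nat.eq_zero_or_pos (rk M) with hr0 | hr1
  · have : M = ⊥ := rk_eq_zero.1 hr0
    subst this
    rw [th_bot]
    apply Real.one_le_rpow (by norm_num)
    positivity
  set ρ : ℝ := (jj : ℝ) + 1 with hρ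
  set θ : ℝ := ε / 20 with hθ
  set R : ℝ := (n : ℝ) ^ 2 with hR
  have hR1 : 1 ≤ R := by rw [hR]; exact one_le_pow₀ hn1
  have hρ0 : 0 < ρ := by rw [hρ]; positivity
  have hθ0 : 0 < θ := by rw [hθ]; positivity
  have hθ1 : θ < 1 := by rw [hθ]; linarith
  have hlogR : Real.logb 2 R = 2 * L := by
    rw [hR, Real.logb_pow]; norm_num [hL]
  have hlog2R : Real.logb 2 (2 * R) ≤ ρ := by
    rw [Real.logb_mul (by norm_num) (by positivity), hlogR,
      Real.logb_self_eq_one (by norm_num)]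
    exact hρL
  have hlogRρ : Real.logb 2 R ≤ ρ := by rw [hlogR]; linarith
  have hjj : (1 / 4 : ℝ) ^ jj * (rk M * R) ^ 2 ≤ 1 := by
    have h1 : (rk M : ℝ) * R ≤ 2 ^ jj := by
      refine le_trans ?_ hκjj
      gcongr
    have h2 : ((rk M : ℝ) * R) ^ 2 ≤ 4 ^ jj := by
      calc ((rk M : ℝ) * R) ^ 2 ≤ (2 ^ jj) ^ 2 := by gcongr
        _ = 4 ^ jj := by rw [← pow_mul, mul_comm, pow_mul]; norm_num
    calc (1 / 4 : ℝ) ^ jj * (rk M * R) ^ 2 ≤ (1 / 4 : ℝ) ^ jj * 4 ^ jj := by gcongr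
      _ = 1 := by rw [← mul_pow]; norm_num
  have hjρ : (jj : ℝ) ≤ ρ := by rw [hρ]; linarith
  have hw : ∀ Γ : AddSubgroup F, Γ ≤ M → Real.logb 2 (H460.w Γ) ≤ -((ε * L) * rk Γ) := by
    intro Γ hΓ
    have h1 := hwM Γ hΓ
    have h2 := w_pos (hM.mono hΓ)
    have h3 : Real.logb 2 (H460.w Γ) ≤ Real.logb 2 ((n : ℝ) ^ (-(ε * rk Γ))) :=
      Real.logb_le_logb_of_le (by norm_num) h2 h1
    rw [Real.logb_rpow_eq_mul_logb_of_pos hn0, ← hL] at h3
    nlinarith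
  have he : 0 < ε * L := by positivity
  have hA0 : 0 ≤ 2 * C0 * ρ / θ := by positivity
  have hrkle : ∀ Γ : AddSubgroup F, Γ ≤ M → (rk Γ : ℝ) ≤ κ * n := by
    intro Γ hΓ
    have : (rk Γ : ℝ) ≤ rk M := by exact_mod_cast rk_mono hΓ
    linarith
  have h2a : ∀ a : ℕ, a ≤ 4 * w + 1 → (2 : ℝ) ^ a ≤ n := by
    intro a ha
    refine le_trans ?_ h2n
    exact pow_le_pow_right₀ (by norm_num) ha
  have hclean : ∀ a : ℕ, a ≤ 4 * w + 1 → ∀ Γ : AddSubgroup F, Γ ≤ M →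
      ph Γ a - 1 ≤ ph (sbal Γ R) a := by
    intro a ha Γ hΓ
    exact RMc_clean (hM.mono hΓ) (h2a a ha) hn3 (hrkle Γ hΓ)
  have hheat := heat (J := J) hw1 (fun j a => mm M R ρ j a) (2 * C0 * ρ / θ) (ρ / θ * 1) hA0
    (by positivity)
    (fun a ha => mm_zero hM hR1 hjj hjρ (by omega))
    (fun j _ a _ => mm_nonneg hM R ρ j a)
    (fun j _ a _ => mm_mono hM hR1 hlogRρ j a)
    (fun j _ a _ => mm_mono_a hM R ρ j a)
    (fun j _ a ha _ => mm_convex hM R ρ j a ha)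
    (fun j hj _ a ha1 ha => mm_step hC0 hstep hM hR1 hlog2R hjj hjρ hθ0 hθ1 he hw hj ha1
      (by omega)
      (by
        have : (a : ℝ) ≤ 4 * w + 1 := by exact_mod_cast ha
        refine lt_of_le_of_lt ?_ hae
        gcongr)
      (by norm_num) (hclean a ha))
  -- upper bound for the last value
  have hup : mm M R ρ J (4 * w + 1) ≤
      κ * n * (((4 * w + 1 : ℝ) + Real.logb 2 (κ * n)) / 2 + 4) + 1 := by
    obtain ⟨Γ, hΓ, hΓe⟩ := mm_attained hM R ρ J (4 * w + 1)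
    have hD : 0 ≤ DD ρ Γ := DD_nonneg hM hR1 hlogRρ hΓ
    have h1 : mm M R ρ J (4 * w + 1) ≤ ph Γ ((4 * w + 1 : ℕ) : ℤ) := by
      rw [hΓe]
      have : 0 ≤ (1 / 2 : ℝ) ^ J * DD ρ Γ := by positivity
      linarith
    have h2 : ph Γ ((4 * w + 1 : ℕ) : ℤ) ≤ ph M ((4 * w + 1 : ℕ) : ℤ) :=
      ph_le_of_le hM (cls_le hΓ) _
    have hnorm : ∀ x ∈ M, x ≠ 0 → 1 ≤ ‖x‖ := by
      intro x hx hx0
      obtain ⟨h1, h2, h3⟩ := w_line hx0
      have hle : AddSubgroup.zmultiples x ≤ M := by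
        rw [AddSubgroup.zmultiples_le]; exact hx
      have h4 := hwM _ hle
      rw [h3, h2] at h4
      have h5 : (n : ℝ) ^ (-(ε * ((1 : ℕ) : ℝ))) ≤ 1 := by
        apply Real.rpow_le_one_of_one_le_of_nonpos hn1
        push_cast
        linarith
      have hx0' : 0 < ‖x‖ := norm_pos_iff.2 hx0
      have h6 : Real.sqrt Real.pi / ‖x‖ ≤ 1 := h4.trans h5
      rw [div_le_one hx0'] at h6
      refine le_trans ?_ h6
      rw [Real.one_le_sqrt]
      linarith [Real.pi_gt_three]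
    have h3 := ph_apriori hM hnorm hr1 (4 * w + 1)
    refine h1.trans (h2.trans (h3.trans ?_))
    have hrk1 : (1 : ℝ) ≤ rk M := by exact_mod_cast hr1
    have h4 : Real.logb 2 (rk M) ≤ Real.logb 2 (κ * n) :=
      Real.logb_le_logb_of_le (by norm_num) (by linarith) hrk
    have h5 : 0 ≤ Real.logb 2 (rk M) := Real.logb_nonneg (by norm_num) hrk1
    push_cast
    gcongr
  -- lower bound
  have hsb : sbal M R ∈ Cls M R := sbal_mem_cls le_rfl R
  have hsle : sbal M R ≤ M := cls_le hsb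
  have hlow := le_mm hM ρ hsb J 1
  have hDle : DD ρ (sbal M R) ≤ ρ * (κ * n) := by
    unfold DD
    have h1 := hw _ hsle
    have h2 : 0 ≤ ε * L * rk (sbal M R) := by positivity
    have h3 : ρ * rk (sbal M R) ≤ ρ * (κ * n) := by
      gcongr
      exact hrkle _ hsle
    linarith
  have hDle2 : (1 / 2 : ℝ) ^ J * DD ρ (sbal M R) ≤ b * n / 4 := by
    refine le_trans ?_ hJ
    gcongr
  have hcl := hclean 1 (by omega) M le_rfl
  have hph01 : ph M 0 ≤ ph M ((1 : ℕ) : ℤ) := ph_mono hM (by norm_num)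
  -- bound of mm J 1
  have hpart1 : (2 + J * (ρ / θ * 1)) * (1 + 2 * C0 * ρ / θ * J / w ^ 2) ≤ b * n / 4 := hfin1
  have hpart2 : (2 * C0 * ρ / θ * J / w ^ 2) ^ 2 * mm M R ρ J (4 * w + 1) ≤ b * n / 4 := by
    refine le_trans ?_ hfin2
    gcongr
  have hmm : mm M R ρ J 1 ≤ b * n / 4 + b * n / 4 := hheat.trans (add_le_add hpart1 hpart2)
  have hcl' : ph M 1 - 1 ≤ ph (sbal M R) 1 := hcl
  have hph01' : ph M 0 ≤ ph M 1 := hph01
  have hlow' : ph (sbal M R) 1 - (1 / 2 : ℝ) ^ J * DD ρ (sbal M R) ≤ mm M R ρ J 1 := hlow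
  have hfinal : ph M 0 ≤ b * n := by
    clear hcl hph01 hlow
    linarith
  unfold ph at hfinal
  have hth : 0 < th M 0 1 := th_pos hM 0 (by norm_num)
  simp only [neg_zero, zpow_zero] at hfinal
  rw [Real.logb_le_iff_le_rpow (by norm_num) hth] at hfinal
  exact hfinal


end Pool.Agent.Y336.PF
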